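import Pool.Agent.P8H31.NZ.Laws
import Pool.Agent.TH294.RG.Pl11

/-!
# The set where an eigenfunction is small, and the fourth moment (MP_a52643_an)

A Riemannian surface in isothermal coordinates: an open set `Ω ⊆ ℂ` with the metric `ρ |dz|²`,
area measure `dvol = ρ dx dy`. `dx f z`, `dy f z` are the partial derivatives `fderiv ℝ f z 1`,
`fderiv ℝ f z I`, and `lap f = dx (dx f) + dy (dy f)`; `TF Ω φ` says that `φ : ℂ → ℝ` is smooth
with compact support contained in `Ω`. `IsLimitLaw φ ρ u μ` says that the laws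
`g ↦ ∫ φ g(u_n) dvol` converge vaguely to the measure `μ` on the line along a subsequence.

In the metric rescaled by `λ` the operator `D = (λ ρ)^{-1/2} (∂x - i ∂y)` is the derivative
`∂_1 - i ∂_2` in the conformal orthonormal frame; at a unit momentum of direction `α` its symbol is
`sym α = i exp(-iα)`. The hypothesis `hsc` says that `u n` has the semiclassical measure
`m(z) ν_z(dα) dvol(z)` on the unit cosphere bundle over `Ω`. Quantum ergodicity is the case `m = 1`,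
`ν_z` uniform. The hypothesis `hpar` says that `ν_z` has no atoms modulo `π`.

Proof idea: put `W_k = D^k u` and `W_{-k} = (-1)^k (conj D)^k u`. The average over `k ≤ N` of
`(-1)^k W_k W_{-k}`, whose size is at most `max |W_k|²`, is close to `m` in mean square, up to `2/3`
of the excess of the fourth moment. On the other hand, where `u` is small, the gradient is small (in
the mean, by integration by parts), hence, step by step, all `W_k` are small, and so is the average.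
Cauchy-Schwarz outside this set gives the sharp form.
-/

set_option autoImplicit false
open MeasureTheory Filter Topology Complex ProbabilityTheory
open scoped ContDiff ENNReal

namespace Pool.Agent.Results.MP_a52643_an.VanishingSet

open Pool.Agent.W745.RW
open Pool.Agent.Results.MP_a52643_an.AbsoluteContinuity (IsLimitLaw)

/-- the normalised frame derivative `(λ ρ)^{-1/2} (∂x - i ∂y)` -/
noncomputable def D (ρ : ℂ → ℝ) (lam : ℝ) (f : ℂ → ℂ) (z : ℂ) : ℂ :=
  ((1 / √(lam * ρ z) : ℝ) : ℂ) * (dx f z - I * dy f z)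

/-- the symbol of `D` at a unit momentum of direction `α` -/
noncomputable def sym (α : ℝ) : ℂ := I * Complex.exp (-(α : ℂ) * I)

/-- the probability that two independent directions of law `ν` are parallel (equal or opposite) -/
noncomputable def parallel (ν : Measure ℝ) : ℝ :=
  (ν.prod ν).real {p | Real.sin (p.1 - p.2) = 0}

/-- the set of the points of `Ω` where `|f| ≤ δ` -/
def near (Ω : Set ℂ) (f : ℂ → ℝ) (δ : ℝ) : Set ℂ := {z | z ∈ Ω ∧ |f z| ≤ δ}

/-- **Result.** Let `u n` be real solutions of `Δu + λ_n u = 0` for the metric `ρ |dz|²` on `Ω`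
(that is `lap u + λ_n ρ u = 0`), `λ_n → ∞`, with semiclassical measure `m(z) ν_z dvol(z)`, `m`
smooth and `ν_z` without atoms modulo `π`.

(1) Let `K ⊆ Ω` be compact, `φ ≥ 0` a test function supported in its interior and `ε > 0`. Put
`A = ∫ φ m² dvol`, `V = ` the part of this integral over `|u n| ≤ δ`. There is `δ > 0` such that for
all large `n`: `(3/2) A V ≤ (A - V) (∫ φ u⁴ dvol - 3 A) + ε (1 + ∫_K u⁴)`.

(2) If `m = 1` (in particular for quantum ergodic sequences), `∫_K u⁴` is bounded and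
`∫ φ u⁴ dvol ≤ Q` for all large `n`, then for every limit law `μ` of `u n` under `φ dvol`:
`(3/2) A μ{0} ≤ (A - μ{0}) (Q - 3 A)`, `A = ∫ φ dvol`.

(3) If `m > 0` and the fourth moments are asymptotically Gaussian, `∫ φ u⁴ dvol → 3 ∫ φ m² dvol`
for all test functions `φ ≥ 0`, then for each of them: the mass of `|u n| ≤ δ` under `φ dvol` is at
most `ε` for large `n`, if `δ` is small in terms of `ε`; and every limit law `μ` under `φ dvol` has
mass `∫ φ dvol`, is absolutely continuous, and, if not zero, has the same null sets as Lebesgue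
measure on some open interval containing `0`. -/
theorem result (Ω : Set ℂ) (hΩ : IsOpen Ω) (ρ : ℂ → ℝ) (hρ : ContDiffOn ℝ ∞ ρ Ω)
    (hρ0 : ∀ z ∈ Ω, 0 < ρ z) (lam : ℕ → ℝ) (hpos : ∀ n, 0 < lam n)
    (hlam : Tendsto lam atTop atTop) (u : ℕ → ℂ → ℝ) (hu : ∀ n, ContDiffOn ℝ ∞ (u n) Ω)
    (heq : ∀ n, ∀ z ∈ Ω, lap (u n) z + lam n * (ρ z * u n z) = 0)
    (m : ℂ → ℝ) (hm : ContDiffOn ℝ ∞ m Ω) (ν : Kernel ℂ ℝ) [IsMarkovKernel ν]
    (hsc : ∀ φ, TF Ω φ → ∀ k : ℕ, Tendsto (fun n => ∫ z, ((φ z * ρ z : ℝ) : ℂ) *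
      ((u n z : ℂ) * (D ρ (lam n))^[k] (fun w => (u n w : ℂ)) z)) atTop
      (𝓝 (∫ z, ((φ z * ρ z : ℝ) : ℂ) * ((m z : ℂ) * ∫ α, sym α ^ k ∂(ν z)))))
    (hpar : ∀ᵐ z ∂(volume.restrict Ω), parallel (ν z) = 0) :
    (∀ K : Set ℂ, IsCompact K → K ⊆ Ω → ∀ φ : ℂ → ℝ, TF (interior K) φ → (∀ z, 0 ≤ φ z) →
      ∀ ε : ℝ, 0 < ε → ∃ δ : ℝ, 0 < δ ∧ ∀ᶠ n in atTop,
        3 / 2 * ((∫ z, φ z * ρ z * m z ^ 2) * ∫ z in near Ω (u n) δ, φ z * ρ z * m z ^ 2) ≤
          ((∫ z, φ z * ρ z * m z ^ 2) - ∫ z in near Ω (u n) δ, φ z * ρ z * m z ^ 2) *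
            ((∫ z, φ z * ρ z * u n z ^ 4) - 3 * ∫ z, φ z * ρ z * m z ^ 2) +
              ε * (1 + ∫ z in K, u n z ^ 4)) ∧
    ((∀ z ∈ Ω, m z = 1) → ∀ K : Set ℂ, IsCompact K → K ⊆ Ω → ∀ T : ℝ,
      (∀ᶠ n in atTop, ∫ z in K, u n z ^ 4 ≤ T) → ∀ φ : ℂ → ℝ, TF (interior K) φ →
      (∀ z, 0 ≤ φ z) → ∀ Q : ℝ, (∀ᶠ n in atTop, ∫ z, φ z * ρ z * u n z ^ 4 ≤ Q) →
      ∀ μ : Measure ℝ, IsFiniteMeasure μ → IsLimitLaw φ ρ u μ →
        3 / 2 * ((∫ z, φ z * ρ z) * μ.real {0}) ≤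
          ((∫ z, φ z * ρ z) - μ.real {0}) * (Q - 3 * ∫ z, φ z * ρ z)) ∧
    ((∀ z ∈ Ω, 0 < m z) → (∀ φ : ℂ → ℝ, TF Ω φ → (∀ z, 0 ≤ φ z) →
        Tendsto (fun n => ∫ z, φ z * ρ z * u n z ^ 4) atTop (𝓝 (3 * ∫ z, φ z * ρ z * m z ^ 2))) →
      ∀ φ : ℂ → ℝ, TF Ω φ → (∀ z, 0 ≤ φ z) →
        (∀ ε : ℝ, 0 < ε → ∃ δ : ℝ, 0 < δ ∧ ∀ᶠ n in atTop,
          ∫ z in near Ω (u n) δ, φ z * ρ z ≤ ε) ∧
        ∀ μ : Measure ℝ, IsFiniteMeasure μ → IsLimitLaw φ ρ u μ →
          μ.real Set.univ = ∫ z, φ z * ρ z ∧ μ ≪ volume ∧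
          (μ = 0 ∨ ∃ J : Set ℝ, IsOpen J ∧ J.OrdConnected ∧ (0 : ℝ) ∈ J ∧
            μ ≪ volume.restrict J ∧ volume.restrict J ≪ μ)) := by
  have H := Pool.Agent.TH294.RG.rawG_met (M := Pool.Agent.TH294.RG.MM m
    Pool.Agent.TH294.RG.ea ν) hΩ hpos hlam hρ hρ0 hu heq hsc
  have hp : ∀ᵐ z ∂(volume.restrict Ω), Pool.Agent.TH294.RG.par Pool.Agent.TH294.RG.ea (ν z) = 0 := by
    filter_upwards [hpar] with z hz
    simp only [Pool.Agent.TH294.RG.par, Pool.Agent.TH294.RG.ea_par]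
    exact hz
  have hm2 : ∀ K' : Set ℂ, IsCompact K' → K' ⊆ Ω → MemLp m 2 (volume.restrict K') := by
    intro K' hK' hK'Ω
    have cm : ContinuousOn m K' := hm.continuousOn.mono hK'Ω
    obtain ⟨C, hC⟩ := hK'.exists_bound_of_continuousOn cm
    have : IsFiniteMeasure (volume.restrict K') := ⟨by simpa using hK'.measure_lt_top⟩
    exact MemLp.of_bound (cm.aestronglyMeasurable hK'.measurableSet) C
      ((ae_restrict_mem hK'.measurableSet).mono hC)
  have cu : ∀ n, ContinuousOn (u n) Ω := fun n => (hu n).continuousOn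
  have mN : ∀ n δ, MeasurableSet (near Ω (u n) δ) := fun n δ =>
    Pool.Agent.P8H31.NZ.near_meas hΩ (cu n) δ
  -- the first part
  have P1 : ∀ K : Set ℂ, IsCompact K → K ⊆ Ω → ∀ φ : ℂ → ℝ, TF (interior K) φ → (∀ z, 0 ≤ φ z) →
      ∀ ε : ℝ, 0 < ε → ∃ δ : ℝ, 0 < δ ∧ ∀ᶠ n in atTop,
        3 / 2 * ((∫ z, φ z * ρ z * m z ^ 2) * ∫ z in near Ω (u n) δ, φ z * ρ z * m z ^ 2) ≤
          ((∫ z, φ z * ρ z * m z ^ 2) - ∫ z in near Ω (u n) δ, φ z * ρ z * m z ^ 2) *
            ((∫ z, φ z * ρ z * u n z ^ 4) - 3 * ∫ z, φ z * ρ z * m z ^ 2) +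
              ε * (1 + ∫ z in K, u n z ^ 4) := by
    intro K hK hKΩ φ hφ hφ0 ε hε
    have hKi : interior K ⊆ Ω := interior_subset.trans hKΩ
    have hφ' : TF (interior K) (fun z => φ z * ρ z) :=
      Pool.Agent.TH294.RS.TF.mulc isOpen_interior hφ (hρ.mono hKi)
    have hφ0' : ∀ z, 0 ≤ φ z * ρ z := by
      intro z
      by_cases hz : z ∈ interior K
      · exact mul_nonneg (hφ0 z) (hρ0 z (hKi hz)).le
      · rw [Pool.Agent.TH294.RS.TF.zero hφ hz, zero_mul]
    obtain ⟨δ, δ0, key⟩ := Pool.Agent.P8H31.NZ.vanish hm2 hm hp H hK hKΩ hφ' hφ0' hε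
    refine ⟨δ, δ0, key.mono fun n hn => ?_⟩
    have h1 := hn (Pool.Agent.P8H31.NZ.Sub (fun z => φ z * ρ z) (fun z => |u n z| ≤ δ))
      (Pool.Agent.P8H31.NZ.Sub_le hφ'.2.1 ((cu n).abs.mono (hφ'.2.2.trans hKi))
        continuousOn_const).measurableSet le_rfl
    have h2 := Pool.Agent.P8H31.NZ.near_Sub hΩ (cu n) δ (φ := fun z => φ z * ρ z)
      (hφ'.2.2.trans hKi) (fun z => m z ^ 2)
    have h3 : ∫ z in near Ω (u n) δ, φ z * ρ z * m z ^ 2 =
        ∫ z in Pool.Agent.P8H31.NZ.Sub (fun z => φ z * ρ z) (fun z => |u n z| ≤ δ),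
          φ z * ρ z * m z ^ 2 := h2
    rw [h3]
    exact h1
  refine ⟨P1, ?_, ?_⟩
  · -- the second part
    intro m1 K hK hKΩ T hT φ hφ hφ0 Q hQ μ hμ hlim
    obtain ⟨σ, hσ, hg⟩ := hlim
    have hKi : interior K ⊆ Ω := interior_subset.trans hKΩ
    have hφΩ : TF Ω φ := ⟨hφ.1, hφ.2.1, hφ.2.2.trans hKi⟩
    have e1 : ∀ z, φ z * ρ z * m z ^ 2 = φ z * ρ z := by
      intro z
      by_cases hz : z ∈ Ω
      · rw [m1 z hz]; ring
      · rw [Pool.Agent.TH294.RS.TF.zero hφΩ hz]; ring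
    have P := P1 K hK hKΩ φ hφ hφ0
    simp only [e1] at P
    obtain ⟨A, hA⟩ : ∃ A : ℝ, A = ∫ z, φ z * ρ z := ⟨_, rfl⟩
    obtain ⟨x, hx⟩ : ∃ x : ℝ, x = μ.real {0} := ⟨_, rfl⟩
    rw [← hA] at P ⊢
    rw [← hx]
    have x0 : 0 ≤ x := by rw [hx]; exact measureReal_nonneg
    have pp : ∀ z, 0 ≤ φ z * ρ z := fun z => by
      by_cases hz : z ∈ Ω
      · exact mul_nonneg (hφ0 z) (hρ0 z hz).le
      · rw [Pool.Agent.TH294.RS.TF.zero hφΩ hz, zero_mul]
    have A0 : 0 ≤ A := by rw [hA]; exact integral_nonneg pp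
    have iρ : Integrable (fun z => φ z * ρ z) :=
      Pool.Agent.W311.RW.int_mul hΩ hφΩ hρ.continuousOn
    have VA : ∀ Z : Set ℂ, ∫ z in Z, φ z * ρ z ≤ A := fun Z => by
      rw [hA]; exact setIntegral_le_integral iρ (ae_of_all _ pp)
    have V0 : ∀ Z : Set ℂ, 0 ≤ ∫ z in Z, φ z * ρ z := fun Z => integral_nonneg pp
    have T0 : 0 ≤ T := by
      obtain ⟨n, hn⟩ := hT.exists
      exact (integral_nonneg fun z => by positivity).trans hn
    -- `Q` is at least `3 A`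
    have Q3 : 0 ≤ Q - 3 * A := by
      have h1 : ∀ ε : ℝ, 0 < ε → 0 ≤ Q - 3 * A + ε * (1 + T) := by
        intro ε hε
        have hφ' : TF (interior K) (fun z => φ z * ρ z) :=
          Pool.Agent.TH294.RS.TF.mulc isOpen_interior hφ (hρ.mono hKi)
        have h2 := Pool.Agent.TH294.RG.exc_low hm2 hp H hK hKΩ hφ' pp hε
        obtain ⟨n, ⟨h3, h4⟩, h5⟩ := ((h2.and hT).and hQ).exists
        simp only [e1] at h3
        rw [← hA] at h3
        have h6 := mul_le_mul_of_nonneg_left h4 hε.le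
        linarith
      have h2 : Tendsto (fun ε : ℝ => Q - 3 * A + ε * (1 + T)) (𝓝[>] 0)
          (𝓝 (Q - 3 * A + 0 * (1 + T))) := by
        refine Tendsto.mono_left ?_ nhdsWithin_le_nhds
        exact (continuous_const.add (continuous_id.mul continuous_const)).tendsto _
      rw [zero_mul, add_zero] at h2
      exact ge_of_tendsto h2 (by filter_upwards [self_mem_nhdsWithin] with ε hε using h1 ε hε)
    have h1 : ∀ ε : ℝ, 0 < ε → 3 / 2 * (A * (x - ε)) ≤ (A - x + ε) * (Q - 3 * A) +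
        ε * (1 + T) := by
      intro ε hε
      obtain ⟨δ, δ0, hδ⟩ := P ε hε
      have h2 := Pool.Agent.P8H31.NZ.atom_le hΩ hρ.continuousOn hρ0 cu hφΩ hφ0 hg δ0 hε
      obtain ⟨n, ⟨⟨h3, h4⟩, h5⟩, h6⟩ := (((h2.and (hσ.tendsto_atTop.eventually hδ)).and
        (hσ.tendsto_atTop.eventually hQ)).and (hσ.tendsto_atTop.eventually hT)).exists
      rw [← hx] at h3
      have h3' : x - ε ≤ ∫ z in near Ω (u (σ n)) δ, φ z * ρ z := h3
      have v1 := VA (near Ω (u (σ n)) δ)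
      have v0 := V0 (near Ω (u (σ n)) δ)
      obtain ⟨V, hV⟩ : ∃ V : ℝ, V = ∫ z in near Ω (u (σ n)) δ, φ z * ρ z := ⟨_, rfl⟩
      rw [← hV] at h3' h4 v1 v0
      have h7 : (A - V) * ((∫ z, φ z * ρ z * u (σ n) z ^ 4) - 3 * A) ≤ (A - V) * (Q - 3 * A) :=
        mul_le_mul_of_nonneg_left (by linarith) (by linarith)
      have h8 : (A - V) * (Q - 3 * A) ≤ (A - x + ε) * (Q - 3 * A) :=
        mul_le_mul_of_nonneg_right (by linarith) Q3
      have h9 := mul_le_mul_of_nonneg_left h6 hε.le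
      have h10 : A * (x - ε) ≤ A * V := mul_le_mul_of_nonneg_left h3' A0
      linarith
    have h2 : Tendsto (fun ε : ℝ => (A - x + ε) * (Q - 3 * A) + ε * (1 + T) -
        3 / 2 * (A * (x - ε))) (𝓝[>] 0) (𝓝 ((A - x + 0) * (Q - 3 * A) + 0 * (1 + T) -
          3 / 2 * (A * (x - 0)))) := by
      refine Tendsto.mono_left ?_ nhdsWithin_le_nhds
      have : Continuous (fun ε : ℝ => (A - x + ε) * (Q - 3 * A) + ε * (1 + T) -
        3 / 2 * (A * (x - ε))) := by fun_prop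
      exact this.tendsto _
    have h3 := ge_of_tendsto h2 (b := 0) (by
      filter_upwards [self_mem_nhdsWithin] with ε hε
      have := h1 ε hε
      linarith)
    rw [add_zero, zero_mul, add_zero, sub_zero] at h3
    linarith
  · -- the third part
    intro m0 hG φ hφ hφ0
    obtain ⟨K, hK, hK1, hKΩ⟩ := exists_compact_between hφ.2.1 hΩ hφ.2.2
    have hφK : TF (interior K) φ := ⟨hφ.1, hφ.2.1, hK1⟩
    have pp : ∀ z, 0 ≤ φ z * ρ z := fun z => by
      by_cases hz : z ∈ Ω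
      · exact mul_nonneg (hφ0 z) (hρ0 z hz).le
      · rw [Pool.Agent.TH294.RS.TF.zero hφ hz, zero_mul]
    have iρ : Integrable (fun z => φ z * ρ z) :=
      Pool.Agent.W311.RW.int_mul hΩ hφ hρ.continuousOn
    -- bounded fourth moments
    obtain ⟨T, T0, hT⟩ : ∃ T : ℝ, 0 ≤ T ∧ ∀ᶠ n in atTop, ∫ z in K, u n z ^ 4 ≤ T := by
      obtain ⟨χ, hχ, hχ1, χ0, _⟩ := Pool.Agent.TH294.RS.exists_cut hΩ hK hKΩ
      obtain ⟨c, c0, hc⟩ : ∃ c : ℝ, 0 < c ∧ ∀ z ∈ K, c ≤ ρ z := by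
        rcases K.eq_empty_or_nonempty with he | hne
        · exact ⟨1, one_pos, fun z hz => by rw [he] at hz; exact absurd hz (Set.notMem_empty z)⟩
        · obtain ⟨z0, hz0, hmin⟩ := hK.exists_isMinOn hne (hρ.continuousOn.mono hKΩ)
          exact ⟨ρ z0, hρ0 z0 (hKΩ hz0), fun z hz => hmin hz⟩
      have h1 := hG χ hχ χ0
      obtain ⟨L, hL⟩ : ∃ L : ℝ, L = 3 * ∫ z, χ z * ρ z * m z ^ 2 := ⟨_, rfl⟩
      rw [← hL] at h1
      refine ⟨(|L| + 1) / c, by positivity, ?_⟩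
      refine (h1.eventually (gt_mem_nhds (show L < |L| + 1 by linarith [le_abs_self L]))).mono
        fun n hn => ?_
      rw [le_div_iff₀ c0, mul_comm]
      refine le_trans ?_ hn.le
      have i4 : Integrable (fun z => χ z * ρ z * u n z ^ 4) := by
        have := Pool.Agent.W311.RW.int_mul hΩ hχ (hρ.continuousOn.mul ((cu n).pow 4))
        refine this.congr (ae_of_all _ fun z => ?_)
        show χ z * (ρ z * u n z ^ 4) = _
        ring
      have h2 : ∫ z in K, χ z * ρ z * u n z ^ 4 ≤ ∫ z, χ z * ρ z * u n z ^ 4 := by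
        refine setIntegral_le_integral i4 (ae_of_all _ fun z => ?_)
        show 0 ≤ χ z * ρ z * u n z ^ 4
        by_cases hz : z ∈ Ω
        · exact mul_nonneg (mul_nonneg (χ0 z) (hρ0 z hz).le) (by positivity)
        · rw [Pool.Agent.TH294.RS.TF.zero hχ hz]; simp
      refine le_trans ?_ h2
      rw [← integral_const_mul]
      have i5 : IntegrableOn (fun z => c * u n z ^ 4) K :=
        (continuousOn_const.mul (((cu n).mono hKΩ).pow 4)).integrableOn_compact hK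
      refine setIntegral_mono_on i5 i4.integrableOn hK.measurableSet fun z hz => ?_
      rw [hχ1 z hz, one_mul]
      exact mul_le_mul_of_nonneg_right (hc z hz) (by positivity)
    obtain ⟨A, hA⟩ : ∃ A : ℝ, A = ∫ z, φ z * ρ z * m z ^ 2 := ⟨_, rfl⟩
    have ppm : ∀ z, 0 ≤ φ z * ρ z * m z ^ 2 := fun z => mul_nonneg (pp z) (sq_nonneg _)
    have A0 : 0 ≤ A := by rw [hA]; exact integral_nonneg ppm
    have im : Integrable (fun z => φ z * ρ z * m z ^ 2) := by
      have := Pool.Agent.W311.RW.int_mul hΩ hφ (hρ.continuousOn.mul (hm.continuousOn.pow 2))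
      refine this.congr (ae_of_all _ fun z => ?_)
      show φ z * (ρ z * m z ^ 2) = _
      ring
    have VA : ∀ Z : Set ℂ, ∫ z in Z, φ z * ρ z * m z ^ 2 ≤ A := fun Z => by
      rw [hA]; exact setIntegral_le_integral im (ae_of_all _ ppm)
    have V0 : ∀ Z : Set ℂ, 0 ≤ ∫ z in Z, φ z * ρ z * m z ^ 2 := fun Z => integral_nonneg ppm
    have Q := hG φ hφ hφ0
    rw [← hA] at Q
    -- the weighted mass
    have Vs : ∀ ε : ℝ, 0 < ε → ∃ δ : ℝ, 0 < δ ∧ ∀ᶠ n in atTop,
        ∫ z in near Ω (u n) δ, φ z * ρ z * m z ^ 2 ≤ ε := by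
      intro ε hε
      rcases A0.eq_or_lt with hA0 | hA0
      · exact ⟨1, one_pos, Eventually.of_forall fun n => (VA _).trans (by linarith)⟩
      · obtain ⟨δ, δ0, hδ⟩ := P1 K hK hKΩ φ hφK hφ0 (ε * A / (2 * (1 + T))) (by positivity)
        refine ⟨δ, δ0, ?_⟩
        have h1 := Q.eventually (gt_mem_nhds (show 3 * A < 3 * A + ε / 2 by linarith))
        filter_upwards [hδ, h1, hT] with n h2 h3 h4
        rw [← hA] at h2
        obtain ⟨V, hV⟩ : ∃ V : ℝ, V = ∫ z in near Ω (u n) δ, φ z * ρ z * m z ^ 2 := ⟨_, rfl⟩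
        have v1 := VA (near Ω (u n) δ)
        have v0 := V0 (near Ω (u n) δ)
        rw [← hV] at h2 v1 v0 ⊢
        have h5 : (A - V) * ((∫ z, φ z * ρ z * u n z ^ 4) - 3 * A) ≤ A * (ε / 2) := by
          have h6 : (A - V) * ((∫ z, φ z * ρ z * u n z ^ 4) - 3 * A) ≤ (A - V) * (ε / 2) :=
            mul_le_mul_of_nonneg_left (by linarith) (by linarith)
          have h7 : (A - V) * (ε / 2) ≤ A * (ε / 2) :=
            mul_le_mul_of_nonneg_right (by linarith) (by linarith)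
          linarith
        have h8 : ε * A / (2 * (1 + T)) * (1 + ∫ z in K, u n z ^ 4) ≤ ε * A / 2 := by
          have h9 : ε * A / (2 * (1 + T)) * (1 + ∫ z in K, u n z ^ 4) ≤
              ε * A / (2 * (1 + T)) * (1 + T) :=
            mul_le_mul_of_nonneg_left (by linarith) (by positivity)
          refine h9.trans (le_of_eq ?_)
          have : (1 + T) ≠ 0 := by positivity
          field_simp
        have h10 : 3 / 2 * (A * V) ≤ A * ε := by linarith
        have h11 : A * (3 / 2 * V) ≤ A * ε := by linarith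
        have h12 := le_of_mul_le_mul_left h11 hA0
        linarith
    have Ms : ∀ ε : ℝ, 0 < ε → ∃ δ : ℝ, 0 < δ ∧ ∀ᶠ n in atTop,
        ∫ z in near Ω (u n) δ, φ z * ρ z ≤ ε := by
      intro ε hε
      obtain ⟨c, c0, hc⟩ : ∃ c : ℝ, 0 < c ∧ ∀ z ∈ K, c ≤ m z ^ 2 := by
        rcases K.eq_empty_or_nonempty with he | hne
        · exact ⟨1, one_pos, fun z hz => by rw [he] at hz; exact absurd hz (Set.notMem_empty z)⟩
        · obtain ⟨z0, hz0, hmin⟩ := hK.exists_isMinOn hne ((hm.continuousOn.mono hKΩ).pow 2)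
          exact ⟨m z0 ^ 2, pow_pos (m0 z0 (hKΩ hz0)) 2, fun z hz => hmin hz⟩
      obtain ⟨δ, δ0, hδ⟩ := Vs (c * ε) (by positivity)
      refine ⟨δ, δ0, hδ.mono fun n hn => ?_⟩
      have h1 : c * ∫ z in near Ω (u n) δ, φ z * ρ z ≤
          ∫ z in near Ω (u n) δ, φ z * ρ z * m z ^ 2 := by
        rw [← integral_const_mul]
        refine setIntegral_mono (iρ.integrableOn.const_mul _) im.integrableOn fun z => ?_
        show c * (φ z * ρ z) ≤ φ z * ρ z * m z ^ 2
        by_cases hz : z ∈ K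
        · have := mul_le_mul_of_nonneg_left (hc z hz) (pp z)
          linarith
        · rw [Pool.Agent.TH294.RS.TF.zero hφK (fun h => hz (interior_subset h))]; simp
      exact le_of_mul_le_mul_left (h1.trans hn) c0
    refine ⟨Ms, fun μ hμ hlim => ?_⟩
    obtain ⟨σ, hσ, hg⟩ := hlim
    -- bounded second moments
    have hL2 : ∀ φ' : ℂ → ℝ, TF Ω φ' → (∀ z, 0 ≤ φ' z) → ∀ᶠ n in atTop,
        ∫ z, φ' z * (ρ z * u n z ^ 2) ≤
          |∫ z, φ' z * ρ z * m z| + 1 := by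
      intro φ' hφ' hφ'0
      have h1 := hsc φ' hφ' 0
      simp only [Function.iterate_zero, id, pow_zero] at h1
      have e2 : ∫ z, ((φ' z * ρ z : ℝ) : ℂ) * ((m z : ℂ) * ∫ _α, (1 : ℂ) ∂(ν z)) =
          ((∫ z, φ' z * ρ z * m z : ℝ) : ℂ) := by
        rw [← integral_complex_ofReal]
        congr 1; funext z
        rw [integral_const, probReal_univ, one_smul]
        push_cast; ring
      rw [e2] at h1
      have h2 := (Complex.continuous_re.tendsto _).comp h1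
      rw [ofReal_re] at h2
      obtain ⟨L, hL⟩ : ∃ L : ℝ, L = ∫ z, φ' z * ρ z * m z := ⟨_, rfl⟩
      rw [← hL] at h2 ⊢
      refine (h2.eventually (gt_mem_nhds (show L < |L| + 1 by linarith [le_abs_self L]))).mono
        fun n hn => ?_
      refine le_trans (le_of_eq ?_) hn.le
      have e3 : ∫ z, ((φ' z * ρ z : ℝ) : ℂ) * ((u n z : ℂ) * (u n z : ℂ)) =
          ((∫ z, φ' z * (ρ z * u n z ^ 2) : ℝ) : ℂ) := by
        rw [← integral_complex_ofReal]
        congr 1; funext z; push_cast; ring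
      show _ = (∫ z, ((φ' z * ρ z : ℝ) : ℂ) * ((u n z : ℂ) * (u n z : ℂ))).re
      rw [e3, ofReal_re]
    have hLoc : Pool.Agent.Results.MP_a52643_an.AbsoluteContinuity.LocL2 Ω u := by
      intro K' hK' hK'Ω
      have H2 := Pool.Agent.P8H31.NZ.RawG_mk hΩ H 0
      obtain ⟨C, hC⟩ := Pool.Agent.TH294.RS.LB.bd H2 K' hK' hK'Ω
      refine ⟨C, hC.mono fun n hn => ?_⟩
      simp only [Complex.norm_real, Real.norm_eq_abs, sq_abs] at hn
      exact hn
    have tφ : Pool.Agent.Results.MP_a52643_an.AbsoluteContinuity.Test Ω φ :=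
      ⟨hφ.1, hφ.2.1, hφ.2.2, hφ0⟩
    have tot := Pool.Agent.P8H31.NZ.total hΩ hρ.continuousOn hρ0 cu hφ hφ0 hσ hg
      (hL2 φ hφ hφ0)
    obtain ⟨C, hPD⟩ := Pool.Agent.Results.MP_a52643_an.PositiveDensity.result
    obtain ⟨C', hAC⟩ := Pool.Agent.Results.MP_a52643_an.AbsoluteContinuity.result Ω ρ lam u hΩ hρ
      hρ0 hlam hu heq hLoc φ tφ
    have ac := (hAC μ hμ ⟨σ, hσ, hg⟩).2
    have shape := ((hPD Ω ρ lam u hΩ hρ hρ0 hlam hu heq hLoc φ tφ
      (|∫ z, φ z * ρ z * m z| + 1) (by positivity) (hL2 φ hφ hφ0)).2 μ hμ ⟨σ, hσ, hg⟩).2.2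
    -- no atom at zero
    have atom : μ {0} = 0 := by
      have h1 : μ.real {0} ≤ 0 := by
        refine le_of_forall_pos_le_add fun ε hε => ?_
        obtain ⟨δ, δ0, hδ⟩ := Ms (ε / 2) (by positivity)
        have h2 := Pool.Agent.P8H31.NZ.atom_le hΩ hρ.continuousOn hρ0 cu hφ hφ0 hg δ0
          (show 0 < ε / 2 by positivity)
        obtain ⟨n, h3, h4⟩ := (h2.and (hσ.tendsto_atTop.eventually hδ)).exists
        have h3' : μ.real {0} - ε / 2 ≤ ∫ z in near Ω (u (σ n)) δ, φ z * ρ z := h3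
        linarith
      have h2 : μ.real {0} = 0 := le_antisymm h1 measureReal_nonneg
      rwa [measureReal_eq_zero_iff (measure_ne_top μ _)] at h2
    have hres : μ.restrict {0}ᶜ = μ := by
      have h1 : ∀ᵐ x ∂μ, x ∈ ({0} : Set ℝ)ᶜ := by
        rw [ae_iff]
        simpa using atom
      exact Measure.restrict_eq_self_of_ae_mem h1
    rw [hres] at ac shape
    refine ⟨tot, ac, ?_⟩
    rcases shape with h1 | h1
    · left
      have h2 : μ Set.univ = 0 := by
        have h3 : μ Set.univ ≤ μ {0} + μ {0}ᶜ := by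
          rw [← Set.union_compl_self ({0} : Set ℝ)]
          exact measure_union_le _ _
        rw [atom, h1, add_zero] at h3
        exact le_antisymm h3 zero_le
      exact Measure.measure_univ_eq_zero.1 h2
    · right; exact h1

end Pool.Agent.Results.MP_a52643_an.VanishingSet
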