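import Pool.Agent.P8H31.VC.ConvF
import Pool.Agent.P8H4.VC.Fe2
import Pool.Agent.P8H45.VC.Odd
import Pool.Agent.P8H57.VC.K16
import Pool.Agent.P8H76.VC.FE3
import Pool.Agent.P8H76.VC.FE4
import Pool.Agent.P8H86.VC.AGZ
import Pool.Agent.P8H86.VC.FE1
import Pool.Agent.P8H86.VC.FP1
import Pool.Agent.Results.MP_a52643_an.VanishingSet

/-!
# Gaussian fourth moments and phase space at the scale of the wavelength (MP_a52643_an)

A Riemannian surface in isothermal coordinates: an open set `Ω ⊆ ℂ` with the metric `ρ |dz|²`,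
area measure `dvol = ρ dx dy`. `lap = dx dx + dy dy` is the Laplacian of the plane; `TF Ω φ` says that
`φ : ℂ → ℝ` is smooth with compact support contained in `Ω`.

The hypothesis `hsc` says that `u n` has the semiclassical measure `m(z) ν_z(dα) dvol(z)` on the unit
cosphere bundle over `Ω` (see `VanishingSet` for the operator `D` and its symbol `sym`); quantum
ergodicity is the case `m = 1`, `ν_z` uniform. The hypothesis `hpar` says that `ν_z` has no atoms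
modulo `π`, the hypothesis `hν` that its even moments depend smoothly on `z`.

The function `dens i j = (D^i u) conj (D^j u)` is the phase space density of `u` with the symbol
`sym^i conj(sym)^j`, of modulus one: the semiclassical measure is the weak limit of these functions.
Here they are averaged over discs of radius `R/√λ_n` (`n → ∞`, then `R → ∞`): this is the local
measure of directions of `u_n` at a point, at the scale of the wavelength.

Proof idea: with `W_k = D^k u`, `W_{-k} = (-1)^k (conj D)^k u`, the averages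
`S_N = (1/N) ∑_{k ≤ N} (-1)^k W_{i+k} W_{j-k}` have the same local means as `W_i W_j` (telescoping),
vary slowly (telescoping), and their second moments are computed exactly by the relations between
the fourth order moments of the `W_k`, which come from a div-curl lemma. All errors are relative to
`1 + ∫_K u_n⁴`, so no bound for the fourth moments is needed. The local plane waves are obtained from
the lemma of Wiener on the atoms of a measure.
-/

set_option autoImplicit false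
open MeasureTheory Filter Topology Complex ProbabilityTheory
open scoped ContDiff ENNReal

namespace Pool.Agent.Results.MP_a52643_an.PhaseSpace

open Pool.Agent.W745.RW
open Pool.Agent.Results.MP_a52643_an.VanishingSet (D sym parallel)

/-- the mean of the complex valued function `f` over the disc of centre `z` and radius `r` -/
noncomputable def mean (r : ℝ) (f : ℂ → ℂ) (z : ℂ) : ℂ :=
  ((1 / Real.pi : ℝ) : ℂ) * ∫ c in Metric.ball (0 : ℂ) 1, f (z + r * c)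

/-- the phase space density of order `(i, j)`: `D^i u` times the conjugate of `D^j u` -/
noncomputable def dens (ρ : ℂ → ℝ) (lam : ℝ) (u : ℂ → ℝ) (i j : ℕ) (z : ℂ) : ℂ :=
  (D ρ lam)^[i] (fun w => (u w : ℂ)) z * (starRingEnd ℂ) ((D ρ lam)^[j] (fun w => (u w : ℂ)) z)

/-- its classical counterpart: `m(z)` times the integral of `sym^i conj(sym)^j` against `ν_z` -/
noncomputable def cls (m : ℂ → ℝ) (ν : Kernel ℂ ℝ) (i j : ℕ) (z : ℂ) : ℂ :=
  (m z : ℂ) * ∫ α, sym α ^ i * (starRingEnd ℂ) (sym α ^ j) ∂(ν z)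

/-- the mean square deviation of the local means, under the weight `w` -/
noncomputable def dev (w : ℂ → ℝ) (c f : ℂ → ℂ) (r : ℝ) : ℝ := ∫ z, w z * ‖mean r f z - c z‖ ^ 2

/-- the excess of the fourth moment over the Gaussian value -/
noncomputable def excess (w m u : ℂ → ℝ) : ℝ :=
  (∫ z, w z * u z ^ 4) - 3 * ∫ z, w z * m z ^ 2

/-- `1 + ∫_K u⁴ dx dy` -/
noncomputable def total (K : Set ℂ) (u : ℂ → ℝ) : ℝ := 1 + ∫ z in K, u z ^ 4

theorem core (K6 : Pool.Agent.P8H31.VC.S_K6) (AGZ : Pool.Agent.P8H31.VC.S_AGZ)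
    (FP1 : Pool.Agent.P8H31.VC.S_FP1) (FE2 : Pool.Agent.P8H31.VC.S_FE2)
    (FE3 : Pool.Agent.P8H31.VC.S_FE3) (FE4 : Pool.Agent.P8H31.VC.S_FE4)
    (ODD : Pool.Agent.P8H31.VC.S_ODD)
    (Ω : Set ℂ) (hΩ : IsOpen Ω) (ρ : ℂ → ℝ) (hρ : ContDiffOn ℝ ∞ ρ Ω)
    (hρ0 : ∀ z ∈ Ω, 0 < ρ z) (lam : ℕ → ℝ) (hpos : ∀ n, 0 < lam n)
    (hlam : Tendsto lam atTop atTop) (u : ℕ → ℂ → ℝ) (hu : ∀ n, ContDiffOn ℝ ∞ (u n) Ω)
    (heq : ∀ n, ∀ z ∈ Ω, lap (u n) z + lam n * (ρ z * u n z) = 0)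
    (m : ℂ → ℝ) (hm : ContDiffOn ℝ ∞ m Ω) (ν : Kernel ℂ ℝ) [IsMarkovKernel ν]
    (hsc : ∀ φ, TF Ω φ → ∀ k : ℕ, Tendsto (fun n => ∫ z, ((φ z * ρ z : ℝ) : ℂ) *
      ((u n z : ℂ) * (D ρ (lam n))^[k] (fun w => (u n w : ℂ)) z)) atTop
      (𝓝 (∫ z, ((φ z * ρ z : ℝ) : ℂ) * ((m z : ℂ) * ∫ α, sym α ^ k ∂(ν z)))))
    (hpar : ∀ᵐ z ∂(volume.restrict Ω), parallel (ν z) = 0)
    (hν : ∀ k : ℕ, Even k → ∃ c : ℂ → ℂ, ContDiffOn ℝ ∞ c Ω ∧
      ∀ᵐ z ∂(volume.restrict Ω), ∫ α, sym α ^ k ∂(ν z) = c z)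
    (K : Set ℂ) (hK : IsCompact K) (hKΩ : K ⊆ Ω)
    (φ : ℂ → ℝ) (hφ : TF (interior K) φ) (hφ0 : ∀ z, 0 ≤ φ z) :
    (∀ i j : ℕ, ∀ ε : ℝ, 0 < ε → ∃ R₀ : ℝ, 0 < R₀ ∧ ∀ R : ℝ, R₀ ≤ R → ∀ᶠ n in atTop,
      |dev (fun z => φ z * ρ z) (cls m ν i j) (dens ρ (lam n) (u n) i j) (R / √(lam n)) -
        (if Even (i + j) then 2 / 3 else 0) * excess (fun z => φ z * ρ z) m (u n)| ≤
          ε * total K (u n)) ∧
    (∀ i j : ℕ, ∀ ε : ℝ, 0 < ε → ∃ R₀ r₀ : ℝ, 0 < R₀ ∧ 0 < r₀ ∧ ∀ᶠ n in atTop, ∀ r : ℝ,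
      R₀ / √(lam n) ≤ r → r ≤ r₀ →
        dev (fun z => φ z * ρ z) (cls m ν i j) (dens ρ (lam n) (u n) i j) r ≤
          (if Even (i + j) then 2 / 3 else 0) * excess (fun z => φ z * ρ z) m (u n) +
            ε * total K (u n)) ∧
    (∀ ε : ℝ, 0 < ε → ∃ S₀ : ℕ, ∀ S : ℕ, S₀ ≤ S → ∃ R₀ : ℝ, 0 < R₀ ∧ ∀ R : ℝ, R₀ ≤ R →
      ∀ᶠ n in atTop, |(S : ℝ)⁻¹ * (∑ s ∈ Finset.Icc 1 S, ∫ z, φ z * ρ z *
          ‖mean (R / √(lam n)) (dens ρ (lam n) (u n) (2 * s) 0) z‖ ^ 2) -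
        2 / 3 * excess (fun z => φ z * ρ z) m (u n)| ≤ ε * total K (u n)) := by
  have H := Pool.Agent.TH294.RG.rawG_met (M := Pool.Agent.TH294.RG.MM m
    Pool.Agent.TH294.RG.ea ν) hΩ hpos hlam hρ hρ0 hu heq hsc
  have hp : ∀ᵐ z ∂(volume.restrict Ω), Pool.Agent.TH294.RG.par Pool.Agent.TH294.RG.ea (ν z) = 0 := by
    filter_upwards [hpar] with z hz
    simp only [Pool.Agent.TH294.RG.par, Pool.Agent.TH294.RG.ea_par]
    exact hz
  have hm2 : ∀ K' : Set ℂ, IsCompact K' → K' ⊆ Ω → MemLp m 2 (volume.restrict K') := by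
    intro K' hK' hK'Ω
    have cm : ContinuousOn m K' := hm.continuousOn.mono hK'Ω
    obtain ⟨C, hC⟩ := hK'.exists_bound_of_continuousOn cm
    have : IsFiniteMeasure (volume.restrict K') := ⟨by simpa using hK'.measure_lt_top⟩
    exact MemLp.of_bound (cm.aestronglyMeasurable hK'.measurableSet) C
      ((ae_restrict_mem hK'.measurableSet).mono hC)
  have Y : Pool.Agent.P8H31.VC.HypF m ν Ω (fun z => 1 / √(ρ z)) (fun n => 1 / √(lam n)) u K :=
    ⟨inferInstance, hm2, hm, hp, H, hK, hKΩ⟩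
  have hKi : interior K ⊆ Ω := interior_subset.trans hKΩ
  obtain ⟨w, hw⟩ : ∃ w : ℂ → ℝ, w = fun z => φ z * ρ z := ⟨_, rfl⟩
  have tw : TF (interior K) w := by
    rw [hw]; exact Pool.Agent.TH294.RS.TF.mulc isOpen_interior hφ (hρ.mono hKi)
  have w0 : ∀ z, 0 ≤ w z := by
    intro z
    rw [hw]
    by_cases hz : z ∈ interior K
    · exact mul_nonneg (hφ0 z) (hρ0 z (hKi hz)).le
    · show 0 ≤ φ z * ρ z
      rw [Pool.Agent.TH294.RS.TF.zero hφ hz, zero_mul]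
  have ex : ∀ n, Pool.Agent.P8H31.VC.exc w m (u n) = excess w m (u n) := by
    intro n
    unfold excess Pool.Agent.P8H31.VC.exc
    congr 2
    congr 1; funext z; ring
  have hν' : ∀ k : ℕ, Even k → ∃ c : ℂ → ℂ, ContDiffOn ℝ ∞ c Ω ∧
      ∀ᵐ z ∂(volume.restrict Ω), ∫ α, Pool.Agent.TH294.RG.ea α ^ k ∂(ν z) = c z := hν
  have RDe : ∀ n, D ρ (lam n) = Pool.Agent.TH294.RS.DP (fun z => 1 / √(ρ z)) (1 / √(lam n)) :=
    fun n => Pool.Agent.TH294.RS.RD_eq ρ (hpos n).le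
  have de : ∀ i j n, dens ρ (lam n) (u n) i j = Pool.Agent.P8H31.VC.dn (fun z => 1 / √(ρ z))
      (fun n => 1 / √(lam n)) u i j n := by
    intro i j n
    funext z
    unfold dens Pool.Agent.P8H31.VC.dn
    rw [RDe]
  have dv : ∀ i j n r, dev w (cls m ν i j) (dens ρ (lam n) (u n) i j) r =
      Pool.Agent.P8H31.VC.VV w (Pool.Agent.P8H31.VC.lmt m ν i j)
        (Pool.Agent.P8H31.VC.dn (fun z => 1 / √(ρ z)) (fun n => 1 / √(lam n)) u i j n) r := by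
    intro i j n r
    rw [de]
    rfl
  have tt : ∀ n, Pool.Agent.P8H31.VC.TT K (u n) = total K (u n) := fun n => rfl
  have eR : ∀ (R : ℝ) n, R / √(lam n) = R * (1 / √(lam n)) := fun R n => by
    rw [mul_one_div]
  rw [← hw]
  refine ⟨fun i j ε hε => ?_, fun i j ε hε => ?_, fun ε hε => ?_⟩
  · obtain ⟨R0, R0p, h1⟩ := Pool.Agent.P8H31.VC.ph_eqF K6 AGZ FP1 FE2 FE3 FE4 ODD Y hν' tw w0 i j
      hε
    refine ⟨R0, R0p, fun R hR => (h1 R hR).mono fun n hn => ?_⟩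
    rw [ex, tt] at hn
    rw [dv, eR]
    exact hn
  · obtain ⟨R0, r0, R0p, r0p, h1⟩ := Pool.Agent.P8H31.VC.ph_upF AGZ FP1 FE2 ODD Y hν' tw w0 i j hε
    refine ⟨R0, r0, R0p, r0p, h1.mono fun n hn r hr hr' => ?_⟩
    have h2 := hn r (by rw [← eR]; exact hr) hr'
    rw [ex, tt] at h2
    rw [dv]
    exact h2
  · obtain ⟨S0, h1⟩ := Pool.Agent.P8H31.VC.planesF K6 AGZ FP1 FE2 FE3 FE4 ODD Y hν' tw w0 hε
    refine ⟨S0, fun S hS => ?_⟩
    obtain ⟨R0, R0p, h2⟩ := h1 S hS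
    refine ⟨R0, R0p, fun R hR => (h2 R hR).mono fun n hn => ?_⟩
    rw [ex, tt] at hn
    have e1 : ∀ s : ℕ, ∫ z, φ z * ρ z * ‖mean (R / √(lam n)) (dens ρ (lam n) (u n) (2 * s) 0) z‖ ^ 2 =
        ∫ z, w z * ‖Pool.Agent.P8H31.VC.cmean (R * (1 / √(lam n)))
          (Pool.Agent.P8H31.VC.dn (fun z => 1 / √(ρ z)) (fun n => 1 / √(lam n)) u (2 * s) 0 n)
            z‖ ^ 2 := by
      intro s
      rw [de, eR, hw]
      rfl
    simp only [e1]
    exact hn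

/-- the consequences under bounded fourth moments -/
theorem bounded {w m : ℂ → ℝ} (w0 : ∀ z, 0 ≤ w z) {K : Set ℂ} {T : ℝ} {u : ℕ → ℂ → ℝ}
    (hT : ∀ᶠ n in atTop, ∫ z in K, u n z ^ 4 ≤ T) {ρ : ℂ → ℝ} {lam : ℕ → ℝ}
    (hpos : ∀ n, 0 < lam n) {ν : Kernel ℂ ℝ}
    (P1 : ∀ i j : ℕ, ∀ ε : ℝ, 0 < ε → ∃ R₀ : ℝ, 0 < R₀ ∧ ∀ R : ℝ, R₀ ≤ R → ∀ᶠ n in atTop,
      |dev w (cls m ν i j) (dens ρ (lam n) (u n) i j) (R / √(lam n)) -
        (if Even (i + j) then 2 / 3 else 0) * excess w m (u n)| ≤ ε * total K (u n))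
    (P2 : ∀ i j : ℕ, ∀ ε : ℝ, 0 < ε → ∃ R₀ r₀ : ℝ, 0 < R₀ ∧ 0 < r₀ ∧ ∀ᶠ n in atTop, ∀ r : ℝ,
      R₀ / √(lam n) ≤ r → r ≤ r₀ → dev w (cls m ν i j) (dens ρ (lam n) (u n) i j) r ≤
        (if Even (i + j) then 2 / 3 else 0) * excess w m (u n) + ε * total K (u n)) :
    (∀ i j : ℕ, Even (i + j) → (Tendsto (fun n => excess w m (u n)) atTop (𝓝 0) ↔
        ∀ ε : ℝ, 0 < ε → ∃ R₀ : ℝ, 0 < R₀ ∧ ∀ R : ℝ, R₀ ≤ R → ∀ᶠ n in atTop,
          dev w (cls m ν i j) (dens ρ (lam n) (u n) i j) (R / √(lam n)) ≤ ε)) ∧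
    (Tendsto (fun n => excess w m (u n)) atTop (𝓝 0) →
      ∀ i j : ℕ, ∀ r : ℕ → ℝ, Tendsto r atTop (𝓝 0) →
        Tendsto (fun n => r n * √(lam n)) atTop atTop →
        Tendsto (fun n => dev w (cls m ν i j) (dens ρ (lam n) (u n) i j) (r n)) atTop (𝓝 0)) := by
  have T0 : 0 ≤ T := by
    obtain ⟨n, hn⟩ := hT.exists
    exact (integral_nonneg fun z => by positivity).trans hn
  have V0 : ∀ i j n r, 0 ≤ dev w (cls m ν i j) (dens ρ (lam n) (u n) i j) r := fun i j n r =>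
    integral_nonneg fun z => mul_nonneg (w0 z) (sq_nonneg _)
  have cv : ∀ {ε : ℝ}, 0 < ε → 0 < ε / (1 + T) ∧ ∀ᶠ n in atTop,
      ε / (1 + T) * total K (u n) ≤ ε := by
    intro ε hε
    refine ⟨by positivity, hT.mono fun n hn => ?_⟩
    have h1 : total K (u n) ≤ 1 + T := by unfold total; linarith
    calc ε / (1 + T) * total K (u n) ≤ ε / (1 + T) * (1 + T) :=
          mul_le_mul_of_nonneg_left h1 (by positivity)
      _ = ε := by field_simp
  refine ⟨fun i j hij => ⟨fun h ε hε => ?_, fun h => ?_⟩, ?_⟩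
  · obtain ⟨c1, c2⟩ := cv (show 0 < ε / 2 by positivity)
    obtain ⟨R0, R0p, h1⟩ := P1 i j _ c1
    rw [if_pos hij] at h1
    refine ⟨R0, R0p, fun R hR => ?_⟩
    filter_upwards [h1 R hR, c2, h.eventually (gt_mem_nhds (show (0 : ℝ) < ε / 2 by positivity))]
      with n b1 b3 b2
    rw [abs_le] at b1
    linarith [b1.2]
  · rw [Metric.tendsto_nhds]
    intro ε hε
    obtain ⟨c1, c2⟩ := cv (show 0 < ε / 6 by positivity)
    obtain ⟨R1, R1p, h1⟩ := P1 i j _ c1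
    rw [if_pos hij] at h1
    obtain ⟨R2, R2p, h2⟩ := h (ε / 6) (by positivity)
    filter_upwards [h1 (max R1 R2) (le_max_left _ _), h2 (max R1 R2) (le_max_right _ _), c2]
      with n b1 b2 b4
    have b3 := V0 i j n (max R1 R2 / √(lam n))
    rw [abs_le] at b1
    rw [Real.dist_eq, sub_zero, abs_lt]
    constructor <;> linarith [b1.1, b1.2]
  · intro h i j r hr hrl
    rw [Metric.tendsto_nhds]
    intro ε hε
    obtain ⟨c1, c2⟩ := cv (show 0 < ε / 3 by positivity)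
    obtain ⟨R0, r0, R0p, r0p, h1⟩ := P2 i j _ c1
    obtain ⟨κ, hκ⟩ : ∃ κ : ℝ, κ = if Even (i + j) then 2 / 3 else 0 := ⟨_, rfl⟩
    have h' : Tendsto (fun n => κ * excess w m (u n)) atTop (𝓝 0) := by
      simpa using h.const_mul κ
    filter_upwards [h1, h'.eventually (gt_mem_nhds (show (0 : ℝ) < ε / 2 by positivity)),
      hr.eventually (gt_mem_nhds r0p), hrl.eventually_ge_atTop R0, c2] with n b1 b2 b3 b4 b7
    have sp : 0 < √(lam n) := Real.sqrt_pos.2 (hpos n)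
    have b5 := b1 (r n) (by rw [div_le_iff₀ sp]; exact b4) b3.le
    rw [← hκ] at b5
    have b6 := V0 i j n (r n)
    rw [Real.dist_eq, sub_zero, abs_of_nonneg b6]
    linarith

/-- **Result.** Let `u n` be real solutions of `Δu + λ_n u = 0` for the metric `ρ |dz|²` on `Ω`,
`λ_n → ∞`, with semiclassical measure `m(z) ν_z dvol(z)`, `m` and the even moments of `ν_z` smooth
in `z`, `ν_z` without atoms modulo `π` (for instance: quantum ergodic). No bound for the fourth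
moments is assumed in (A).

(A) Let `K ⊆ Ω` be compact, `T_n = 1 + ∫_K u_n⁴ dx dy`, and let `φ ≥ 0` be a test function supported
in the interior of `K`; all the integrals are taken with the weight `φ dvol`.
(1) At the scale of the wavelength the local phase space averages of every even order `i + j` have
the same variance, `2/3` of the excess of the fourth moment over the Gaussian value; those of odd
order have the variance zero: for `ε > 0`, `R ≥ R₀(i, j, ε)` and large `n`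
`|∫ φ |mean_{R/√λ_n} (D^i u conj(D^j u)) - m ∫ sym^i conj(sym)^j dν|² dvol - κ excess| ≤ ε T_n`,
`κ = 2/3` for even `i + j` and `0` for odd `i + j`.
(2) On all larger scales the variance is at most this number.
(3) Local plane waves: `(1/S) ∑_{s ≤ S} ∫ φ |mean_{R/√λ_n} (u D^(2s) u)|² dvol`, the mean sum of
squares of the masses which the local measures of directions give to single lines, is equal to
`2/3` of the excess up to `ε T_n`, for `S ≥ S₀(ε)`, `R ≥ R₀(S, ε)` and large `n`.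
(B) Let moreover `∫_K u_n⁴ ≤ T` for large `n`.
(4) For each even `i + j`: the fourth moment is asymptotically Gaussian if and only if the averages
of order `(i, j)` equidistribute at the scale of the wavelength. So equidistribution of the mass
(`i = j = 0`), of any other single even order, and of all orders (phase space) are equivalent.
(5) Then all of them equidistribute on every scale `r_n → 0` with `r_n √λ_n → ∞`.
(C) If the fourth moments are asymptotically Gaussian under all test functions (no bound is assumed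
now), then the averages of all orders equidistribute on every scale `r_n → 0` with
`r_n √λ_n → ∞`. -/
theorem result (Ω : Set ℂ) (hΩ : IsOpen Ω) (ρ : ℂ → ℝ) (hρ : ContDiffOn ℝ ∞ ρ Ω)
    (hρ0 : ∀ z ∈ Ω, 0 < ρ z) (lam : ℕ → ℝ) (hpos : ∀ n, 0 < lam n)
    (hlam : Tendsto lam atTop atTop) (u : ℕ → ℂ → ℝ) (hu : ∀ n, ContDiffOn ℝ ∞ (u n) Ω)
    (heq : ∀ n, ∀ z ∈ Ω, lap (u n) z + lam n * (ρ z * u n z) = 0)
    (m : ℂ → ℝ) (hm : ContDiffOn ℝ ∞ m Ω) (ν : Kernel ℂ ℝ) [IsMarkovKernel ν]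
    (hsc : ∀ φ, TF Ω φ → ∀ k : ℕ, Tendsto (fun n => ∫ z, ((φ z * ρ z : ℝ) : ℂ) *
      ((u n z : ℂ) * (D ρ (lam n))^[k] (fun w => (u n w : ℂ)) z)) atTop
      (𝓝 (∫ z, ((φ z * ρ z : ℝ) : ℂ) * ((m z : ℂ) * ∫ α, sym α ^ k ∂(ν z)))))
    (hpar : ∀ᵐ z ∂(volume.restrict Ω), parallel (ν z) = 0)
    (hν : ∀ k : ℕ, Even k → ∃ c : ℂ → ℂ, ContDiffOn ℝ ∞ c Ω ∧
      ∀ᵐ z ∂(volume.restrict Ω), ∫ α, sym α ^ k ∂(ν z) = c z) :
    (∀ K : Set ℂ, IsCompact K → K ⊆ Ω → ∀ φ : ℂ → ℝ, TF (interior K) φ → (∀ z, 0 ≤ φ z) →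
      (∀ i j : ℕ, ∀ ε : ℝ, 0 < ε → ∃ R₀ : ℝ, 0 < R₀ ∧ ∀ R : ℝ, R₀ ≤ R → ∀ᶠ n in atTop,
        |dev (fun z => φ z * ρ z) (cls m ν i j) (dens ρ (lam n) (u n) i j) (R / √(lam n)) -
          (if Even (i + j) then 2 / 3 else 0) * excess (fun z => φ z * ρ z) m (u n)| ≤
            ε * total K (u n)) ∧
      (∀ i j : ℕ, ∀ ε : ℝ, 0 < ε → ∃ R₀ r₀ : ℝ, 0 < R₀ ∧ 0 < r₀ ∧ ∀ᶠ n in atTop, ∀ r : ℝ,
        R₀ / √(lam n) ≤ r → r ≤ r₀ →
          dev (fun z => φ z * ρ z) (cls m ν i j) (dens ρ (lam n) (u n) i j) r ≤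
            (if Even (i + j) then 2 / 3 else 0) * excess (fun z => φ z * ρ z) m (u n) +
              ε * total K (u n)) ∧
      (∀ ε : ℝ, 0 < ε → ∃ S₀ : ℕ, ∀ S : ℕ, S₀ ≤ S → ∃ R₀ : ℝ, 0 < R₀ ∧ ∀ R : ℝ, R₀ ≤ R →
        ∀ᶠ n in atTop, |(S : ℝ)⁻¹ * (∑ s ∈ Finset.Icc 1 S, ∫ z, φ z * ρ z *
            ‖mean (R / √(lam n)) (dens ρ (lam n) (u n) (2 * s) 0) z‖ ^ 2) -
          2 / 3 * excess (fun z => φ z * ρ z) m (u n)| ≤ ε * total K (u n)) ∧
      (∀ T : ℝ, (∀ᶠ n in atTop, ∫ z in K, u n z ^ 4 ≤ T) →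
        (∀ i j : ℕ, Even (i + j) →
          (Tendsto (fun n => ∫ z, φ z * ρ z * u n z ^ 4) atTop
              (𝓝 (3 * ∫ z, φ z * ρ z * m z ^ 2)) ↔
            ∀ ε : ℝ, 0 < ε → ∃ R₀ : ℝ, 0 < R₀ ∧ ∀ R : ℝ, R₀ ≤ R → ∀ᶠ n in atTop,
              dev (fun z => φ z * ρ z) (cls m ν i j) (dens ρ (lam n) (u n) i j) (R / √(lam n)) ≤ ε)) ∧
        (Tendsto (fun n => ∫ z, φ z * ρ z * u n z ^ 4) atTop (𝓝 (3 * ∫ z, φ z * ρ z * m z ^ 2)) →
          ∀ i j : ℕ, ∀ r : ℕ → ℝ, Tendsto r atTop (𝓝 0) →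
            Tendsto (fun n => r n * √(lam n)) atTop atTop →
            Tendsto (fun n => dev (fun z => φ z * ρ z) (cls m ν i j) (dens ρ (lam n) (u n) i j) (r n))
              atTop (𝓝 0)))) ∧
    ((∀ φ : ℂ → ℝ, TF Ω φ → (∀ z, 0 ≤ φ z) →
        Tendsto (fun n => ∫ z, φ z * ρ z * u n z ^ 4) atTop (𝓝 (3 * ∫ z, φ z * ρ z * m z ^ 2))) →
      ∀ φ : ℂ → ℝ, TF Ω φ → (∀ z, 0 ≤ φ z) → ∀ i j : ℕ, ∀ r : ℕ → ℝ, Tendsto r atTop (𝓝 0) →
        Tendsto (fun n => r n * √(lam n)) atTop atTop →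
          Tendsto (fun n => dev (fun z => φ z * ρ z) (cls m ν i j) (dens ρ (lam n) (u n) i j)
            (r n)) atTop (𝓝 0)) := by
  have C := core Pool.Agent.P8H57.VC.k6 Pool.Agent.P8H86.VC.agz Pool.Agent.P8H86.VC.fp1
    (Pool.Agent.P8H4.VC.fe2 Pool.Agent.P8H86.VC.fe1)
    (Pool.Agent.P8H76.VC.fe3 Pool.Agent.P8H86.VC.fe1)
    (Pool.Agent.P8H76.VC.fe4 Pool.Agent.P8H86.VC.agz) Pool.Agent.P8H45.VC.odd
    Ω hΩ ρ hρ hρ0 lam hpos hlam u hu heq m hm ν hsc hpar hν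
  have B : ∀ K : Set ℂ, IsCompact K → K ⊆ Ω → ∀ φ : ℂ → ℝ, TF (interior K) φ → (∀ z, 0 ≤ φ z) →
      ∀ T : ℝ, (∀ᶠ n in atTop, ∫ z in K, u n z ^ 4 ≤ T) →
        (∀ i j : ℕ, Even (i + j) →
          (Tendsto (fun n => ∫ z, φ z * ρ z * u n z ^ 4) atTop
              (𝓝 (3 * ∫ z, φ z * ρ z * m z ^ 2)) ↔
            ∀ ε : ℝ, 0 < ε → ∃ R₀ : ℝ, 0 < R₀ ∧ ∀ R : ℝ, R₀ ≤ R → ∀ᶠ n in atTop,
              dev (fun z => φ z * ρ z) (cls m ν i j) (dens ρ (lam n) (u n) i j) (R / √(lam n)) ≤ ε)) ∧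
        (Tendsto (fun n => ∫ z, φ z * ρ z * u n z ^ 4) atTop (𝓝 (3 * ∫ z, φ z * ρ z * m z ^ 2)) →
          ∀ i j : ℕ, ∀ r : ℕ → ℝ, Tendsto r atTop (𝓝 0) →
            Tendsto (fun n => r n * √(lam n)) atTop atTop →
            Tendsto (fun n => dev (fun z => φ z * ρ z) (cls m ν i j) (dens ρ (lam n) (u n) i j) (r n))
              atTop (𝓝 0)) := by
    intro K hK hKΩ φ hφ hφ0 T hT
    obtain ⟨P1, P2, -⟩ := C K hK hKΩ φ hφ hφ0
    have hKi : interior K ⊆ Ω := interior_subset.trans hKΩ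
    have w0 : ∀ z, 0 ≤ φ z * ρ z := by
      intro z
      by_cases hz : z ∈ interior K
      · exact mul_nonneg (hφ0 z) (hρ0 z (hKi hz)).le
      · rw [Pool.Agent.TH294.RS.TF.zero hφ hz, zero_mul]
    obtain ⟨b1, b2⟩ := bounded w0 hT hpos P1 P2
    have exT : Tendsto (fun n => ∫ z, φ z * ρ z * u n z ^ 4) atTop
        (𝓝 (3 * ∫ z, φ z * ρ z * m z ^ 2)) ↔
        Tendsto (fun n => excess (fun z => φ z * ρ z) m (u n)) atTop (𝓝 0) := by
      rw [← tendsto_sub_nhds_zero_iff]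
      exact tendsto_congr fun n => rfl
    refine ⟨fun i j hij => ?_, fun h => ?_⟩
    · rw [exT]; exact b1 i j hij
    · rw [exT] at h; exact b2 h
  refine ⟨fun K hK hKΩ φ hφ hφ0 => ?_, fun hG φ hφ hφ0 i j r hr hrl => ?_⟩
  · obtain ⟨P1, P2, P3⟩ := C K hK hKΩ φ hφ hφ0
    exact ⟨P1, P2, P3, fun T hT => B K hK hKΩ φ hφ hφ0 T hT⟩
  · obtain ⟨K, hK, hK1, hKΩ⟩ := exists_compact_between hφ.2.1 hΩ hφ.2.2
    have hφK : TF (interior K) φ := ⟨hφ.1, hφ.2.1, hK1⟩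
    have cu : ∀ n, ContinuousOn (u n) Ω := fun n => (hu n).continuousOn
    -- bounded fourth moments
    obtain ⟨T, hT⟩ : ∃ T : ℝ, ∀ᶠ n in atTop, ∫ z in K, u n z ^ 4 ≤ T := by
      obtain ⟨χ, hχ, hχ1, χ0, _⟩ := Pool.Agent.TH294.RS.exists_cut hΩ hK hKΩ
      obtain ⟨c, c0, hc⟩ : ∃ c : ℝ, 0 < c ∧ ∀ z ∈ K, c ≤ ρ z := by
        rcases K.eq_empty_or_nonempty with he | hne
        · exact ⟨1, one_pos, fun z hz => by rw [he] at hz; exact absurd hz (Set.notMem_empty z)⟩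
        · obtain ⟨z0, hz0, hmin⟩ := hK.exists_isMinOn hne (hρ.continuousOn.mono hKΩ)
          exact ⟨ρ z0, hρ0 z0 (hKΩ hz0), fun z hz => hmin hz⟩
      have h1 := hG χ hχ χ0
      obtain ⟨L, hL⟩ : ∃ L : ℝ, L = 3 * ∫ z, χ z * ρ z * m z ^ 2 := ⟨_, rfl⟩
      rw [← hL] at h1
      refine ⟨(|L| + 1) / c, ?_⟩
      refine (h1.eventually (gt_mem_nhds (show L < |L| + 1 by linarith [le_abs_self L]))).mono
        fun n hn => ?_
      rw [le_div_iff₀ c0, mul_comm]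
      refine le_trans ?_ hn.le
      have i4 : Integrable (fun z => χ z * ρ z * u n z ^ 4) := by
        have := Pool.Agent.W311.RW.int_mul hΩ hχ (hρ.continuousOn.mul ((cu n).pow 4))
        refine this.congr (ae_of_all _ fun z => ?_)
        show χ z * (ρ z * u n z ^ 4) = _
        ring
      have h2 : ∫ z in K, χ z * ρ z * u n z ^ 4 ≤ ∫ z, χ z * ρ z * u n z ^ 4 := by
        refine setIntegral_le_integral i4 (ae_of_all _ fun z => ?_)
        show 0 ≤ χ z * ρ z * u n z ^ 4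
        by_cases hz : z ∈ Ω
        · exact mul_nonneg (mul_nonneg (χ0 z) (hρ0 z hz).le) (by positivity)
        · rw [Pool.Agent.TH294.RS.TF.zero hχ hz]; simp
      refine le_trans ?_ h2
      rw [← integral_const_mul]
      have i5 : IntegrableOn (fun z => c * u n z ^ 4) K :=
        (continuousOn_const.mul (((cu n).mono hKΩ).pow 4)).integrableOn_compact hK
      refine setIntegral_mono_on i5 i4.integrableOn hK.measurableSet fun z hz => ?_
      rw [hχ1 z hz, one_mul]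
      exact mul_le_mul_of_nonneg_right (hc z hz) (by positivity)
    exact (B K hK hKΩ φ hφK hφ0 T hT).2 (hG φ hφ hφ0) i j r hr hrl

end Pool.Agent.Results.MP_a52643_an.PhaseSpace
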