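import Pool.Agent.P8H31.PW.Fin
import Pool.Agent.P8H41.PWV.Sqr
import Pool.Agent.P8H55.PWV.Fou
import Pool.Agent.P8H83.PWV.Wsum
import Pool.Agent.P8H88.PWV.Gsum

/-!
# Gaussian fourth moments and local plane waves (MP_a52643_an)

A Riemannian surface in isothermal coordinates: an open set `Ω ⊆ ℂ` with the metric `ρ |dz|²`,
area measure `dvol = ρ dx dy`. `lap = dx dx + dy dy`; `TF Ω φ` says that `φ : ℂ → ℝ` is smooth with
compact support contained in `Ω`. `D = (λ ρ)^{-1/2} (∂x - i ∂y)` has at a unit momentum of direction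
`α` the symbol `sym α = i exp(-iα)`.

The local plane wave coefficient of `u` at `z` in the direction `α`, with resolution `1/N`, is
`P_N(z, α) = (1/N) ∑_{k<N} (sym α)^{-k} D^k u(z)`. (For the plane wave `exp(i √λ β·z)` of the plane
and direction `β = α` it is the wave itself; for `β ≠ α` it is `O(1/(N |β - α|))`.)

Proof idea: the fourth power of a trigonometric polynomial of degree `< N`, summed over the grid of
`2N` directions, is a sum over the quadruples `a + b = c + d`; the corresponding fourth moments of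
the `D^k u` have total order zero and are determined by `∫ φ u⁴` (the starting file
FourthOrderRigidity).
-/

set_option autoImplicit false
open MeasureTheory Filter Topology Complex ProbabilityTheory
open scoped ContDiff ENNReal

namespace Pool.Agent.Results.MP_a52643_an.PlaneWaves

open Pool.Agent.W745.RW (TF lap dx dy)
open Pool.Agent.Results.MP_4fa179_mp.FourthOrderRigidity (D sym)

/-- the local plane wave coefficient of the direction `α` -/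
noncomputable def wave (ρ : ℂ → ℝ) (lam : ℝ) (u : ℂ → ℝ) (N : ℕ) (α : ℝ) (z : ℂ) : ℂ :=
  (1 / (N : ℂ)) * ∑ k ∈ Finset.range N, (sym α)⁻¹ ^ k * (D ρ lam)^[k] (fun w => (u w : ℂ)) z

/-- the sum over the `2N` directions `π j / N` of the fourth moments of the plane wave
coefficients -/
noncomputable def waves (w : ℂ → ℝ) (ρ : ℂ → ℝ) (lam : ℝ) (u : ℂ → ℝ) (N : ℕ) : ℝ :=
  ∑ j ∈ Finset.range (2 * N), ∫ z, w z * ‖wave ρ lam u N (Real.pi * j / N) z‖ ^ 4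

/-- the excess of the fourth moment over the Gaussian value -/
noncomputable def excess (w m u : ℂ → ℝ) : ℝ :=
  (∫ z, w z * u z ^ 4) - 3 * ∫ z, w z * m z ^ 2

/-- the equivalence for bounded fourth moments -/
theorem bounded {E : ℕ → ℝ} {M T : ℝ} (hM : 0 ≤ M) {Tn : ℕ → ℝ} (T1 : ∀ n, 1 ≤ Tn n)
    (T2 : ∀ᶠ n in atTop, Tn n ≤ 1 + T) {wv : ℕ → ℕ → ℝ} (w0 : ∀ N n, 0 ≤ wv N n)
    (h : ∀ N : ℕ, 1 ≤ N → Tendsto (fun n => (wv N n - ((4 / 9 + 14 / (9 * (N : ℝ) ^ 2)) * E n +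
      (4 * (N : ℝ) ^ 2 + 2) / (N : ℝ) ^ 3 * M)) / Tn n) atTop (𝓝 0)) :
    Tendsto E atTop (𝓝 0) ↔ ∀ η : ℝ, 0 < η → ∃ N₀ : ℕ, ∀ N : ℕ, N₀ ≤ N →
      ∀ᶠ n in atTop, wv N n ≤ η := by
  have T0 : 0 ≤ T := by
    obtain ⟨n, hn⟩ := T2.exists
    linarith [T1 n]
  have X : ∀ N : ℕ, 1 ≤ N → ∀ δ : ℝ, 0 < δ → ∀ᶠ n in atTop,
      |wv N n - ((4 / 9 + 14 / (9 * (N : ℝ) ^ 2)) * E n +
        (4 * (N : ℝ) ^ 2 + 2) / (N : ℝ) ^ 3 * M)| ≤ δ := by
    intro N hN δ hδ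
    have h1 := (Metric.tendsto_nhds.1 (h N hN)) (δ / (1 + T)) (by positivity)
    filter_upwards [h1, T2] with n a1 a2
    rw [Real.dist_eq, sub_zero, abs_div, abs_of_pos (lt_of_lt_of_le one_pos (T1 n)),
      div_lt_div_iff₀ (lt_of_lt_of_le one_pos (T1 n)) (by positivity)] at a1
    have a3 : δ * Tn n ≤ δ * (1 + T) := mul_le_mul_of_nonneg_left a2 hδ.le
    nlinarith
  have kap : ∀ N : ℕ, 1 ≤ N → (4 / 9 : ℝ) ≤ 4 / 9 + 14 / (9 * (N : ℝ) ^ 2) ∧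
      4 / 9 + 14 / (9 * (N : ℝ) ^ 2) ≤ 2 := by
    intro N hN
    have N1 : (1 : ℝ) ≤ N := by exact_mod_cast hN
    refine ⟨by have : 0 ≤ 14 / (9 * (N : ℝ) ^ 2) := by positivity
               linarith, ?_⟩
    have : 14 / (9 * (N : ℝ) ^ 2) ≤ 14 / 9 := by
      apply div_le_div_of_nonneg_left <;> nlinarith
    linarith
  have gam : ∀ N : ℕ, 1 ≤ N → (4 * (N : ℝ) ^ 2 + 2) / (N : ℝ) ^ 3 ≤ 6 / N := by
    intro N hN
    have N1 : (1 : ℝ) ≤ N := by exact_mod_cast hN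
    rw [div_le_div_iff₀ (by positivity) (by positivity)]
    nlinarith [mul_nonneg (sub_nonneg.2 N1) (by positivity : (0 : ℝ) ≤ N),
      mul_pos (by positivity : (0 : ℝ) < N) (by positivity : (0 : ℝ) < (N : ℝ) ^ 2)]
  have gam0 : ∀ N : ℕ, 1 ≤ N → 0 ≤ (4 * (N : ℝ) ^ 2 + 2) / (N : ℝ) ^ 3 := by
    intro N hN
    positivity
  have big : ∀ η : ℝ, 0 < η → ∃ N₁ : ℕ, 1 ≤ N₁ ∧ ∀ N : ℕ, N₁ ≤ N →
      (4 * (N : ℝ) ^ 2 + 2) / (N : ℝ) ^ 3 * M ≤ η := by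
    intro η hη
    obtain ⟨N₁, hN₁⟩ := exists_nat_ge (6 * M / η + 1)
    have p1 : 0 ≤ 6 * M / η := by positivity
    have N1 : (1 : ℝ) ≤ N₁ := by linarith
    refine ⟨N₁, by exact_mod_cast N1, fun N hN => ?_⟩
    have hN' : (N₁ : ℝ) ≤ N := by exact_mod_cast hN
    have N2 : (1 : ℝ) ≤ N := by linarith
    have h1 := gam N (by exact_mod_cast N2)
    calc (4 * (N : ℝ) ^ 2 + 2) / (N : ℝ) ^ 3 * M ≤ 6 / N * M := mul_le_mul_of_nonneg_right h1 hM
      _ ≤ η := by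
        rw [div_mul_eq_mul_div, div_le_iff₀ (by linarith)]
        have h2 : 6 * M / η ≤ N := by linarith
        rw [div_le_iff₀ hη] at h2
        linarith
  constructor
  · intro hE η hη
    obtain ⟨N₁, h1, h2⟩ := big (η / 2) (by positivity)
    refine ⟨N₁, fun N hN => ?_⟩
    have h3 := h2 N hN
    have h4 := kap N (h1.trans hN)
    filter_upwards [X N (h1.trans hN) (η / 4) (by positivity),
      Metric.tendsto_nhds.1 hE (η / 8) (by positivity)] with n a1 a2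
    rw [Real.dist_eq, sub_zero] at a2
    rw [abs_le] at a1
    have h5 : (4 / 9 + 14 / (9 * (N : ℝ) ^ 2)) * E n ≤ 2 * |E n| := by
      calc (4 / 9 + 14 / (9 * (N : ℝ) ^ 2)) * E n ≤ (4 / 9 + 14 / (9 * (N : ℝ) ^ 2)) * |E n| :=
            mul_le_mul_of_nonneg_left (le_abs_self _) (by linarith [h4.1])
        _ ≤ 2 * |E n| := mul_le_mul_of_nonneg_right h4.2 (abs_nonneg _)
    linarith [a1.2]
  · intro hW
    rw [Metric.tendsto_nhds]
    intro ε hε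
    obtain ⟨N₀, h0⟩ := hW (ε / 9) (by positivity)
    obtain ⟨N₁, h1, h2⟩ := big (ε / 9) (by positivity)
    have g1 : 1 ≤ max N₀ N₁ := h1.trans (le_max_right _ _)
    have h3 := h2 (max N₀ N₁) (le_max_right _ _)
    have h4 := kap (max N₀ N₁) g1
    have h6 := mul_nonneg (gam0 (max N₀ N₁) g1) hM
    filter_upwards [X (max N₀ N₁) g1 (ε / 9) (by positivity), h0 (max N₀ N₁) (le_max_left _ _)]
      with n a1 a2
    have a3 := w0 (max N₀ N₁) n
    rw [abs_le] at a1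
    rw [Real.dist_eq, sub_zero, abs_lt]
    obtain ⟨κ, hκ⟩ : ∃ κ : ℝ, κ = 4 / 9 + 14 / (9 * ((max N₀ N₁ : ℕ) : ℝ) ^ 2) := ⟨_, rfl⟩
    rw [← hκ] at a1 h4
    have b1 : κ * E n ≤ 2 * ε / 9 := by linarith [a1.1]
    have b2 : -(2 * ε / 9) ≤ κ * E n := by linarith [a1.2]
    constructor
    · by_contra hc
      rw [not_lt] at hc
      nlinarith [h4.1]
    · by_contra hc
      rw [not_lt] at hc
      nlinarith [h4.1]

/-- **Result.** Let `u n` be real solutions of `Δu + λ_n u = 0` for the metric `ρ |dz|²` on `Ω`,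
`λ_n → ∞`, with semiclassical measure `m(z) ν_z dvol(z)`, `m` locally square integrable and `ν_z`
uniform in the direction (quantum ergodicity: `m = 1`). Let `K ⊆ Ω` be compact, `φ` a test function
supported in the interior of `K`, and `E_n = ∫ φ u_n⁴ dvol - 3 ∫ φ m² dvol`.

(1) For every `N ≥ 1` the sum over the `2N` directions `α_j = π j / N` of the fourth moments
`∫ φ |P_N(·, α_j)|⁴ dvol` of the local plane wave coefficients is
`(4/9 + 14/(9N²)) E_n + (4N² + 2)/N³ ∫ φ m² dvol + o(1 + ∫_K u_n⁴)`.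
(2) If `φ ≥ 0` and the fourth moments `∫_K u_n⁴` are bounded, then `E_n → 0` (the fourth moments are
asymptotically Gaussian) if and only if there are no local plane waves: for every `η > 0` these sums
are at most `η` for `N ≥ N₀(η)` and `n ≥ n₀(η, N)`.
(3) If `φ ≥ 0` and, for all large `n`, `|P_N(·, α_j)| ≤ η` on `Ω` for all `j < 2N`, then
`(4/9 + 14/(9N²)) E_n ≤ (2η²/N) ∑_{k<N} ∫ φ |D^k u_n|² dvol + ε (1 + ∫_K u_n⁴)` for large `n`. -/
theorem result (Ω : Set ℂ) (hΩ : IsOpen Ω) (ρ : ℂ → ℝ) (hρ : ContDiffOn ℝ ∞ ρ Ω)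
    (hρ0 : ∀ z ∈ Ω, 0 < ρ z) (lam : ℕ → ℝ) (hpos : ∀ n, 0 < lam n)
    (hlam : Tendsto lam atTop atTop) (u : ℕ → ℂ → ℝ) (hu : ∀ n, ContDiffOn ℝ ∞ (u n) Ω)
    (heq : ∀ n, ∀ z ∈ Ω, lap (u n) z + lam n * (ρ z * u n z) = 0)
    (m : ℂ → ℝ) (hm : ∀ K : Set ℂ, IsCompact K → K ⊆ Ω → MemLp m 2 (volume.restrict K))
    (ν : Kernel ℂ ℝ) [IsMarkovKernel ν]
    (hsc : ∀ φ, TF Ω φ → ∀ k : ℕ, Tendsto (fun n => ∫ z, ((φ z * ρ z : ℝ) : ℂ) *
      ((u n z : ℂ) * (D ρ (lam n))^[k] (fun w => (u n w : ℂ)) z)) atTop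
      (𝓝 (∫ z, ((φ z * ρ z : ℝ) : ℂ) * ((m z : ℂ) * ∫ α, sym α ^ k ∂(ν z)))))
    (hν : ∀ z ∈ Ω, ∀ k : ℤ, k ≠ 0 → ∫ α, sym α ^ k ∂(ν z) = 0)
    (K : Set ℂ) (hK : IsCompact K) (hKΩ : K ⊆ Ω) (φ : ℂ → ℝ) (hφ : TF (interior K) φ) :
    (∀ N : ℕ, 1 ≤ N → Tendsto (fun n => (waves (fun z => φ z * ρ z) ρ (lam n) (u n) N -
      ((4 / 9 + 14 / (9 * (N : ℝ) ^ 2)) * excess (fun z => φ z * ρ z) m (u n) +
        (4 * (N : ℝ) ^ 2 + 2) / (N : ℝ) ^ 3 * ∫ z, φ z * ρ z * m z ^ 2)) /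
      (1 + ∫ z in K, u n z ^ 4)) atTop (𝓝 0)) ∧
    ((∀ z, 0 ≤ φ z) → ∀ T : ℝ, (∀ᶠ n in atTop, ∫ z in K, u n z ^ 4 ≤ T) →
      (Tendsto (fun n => ∫ z, φ z * ρ z * u n z ^ 4) atTop (𝓝 (3 * ∫ z, φ z * ρ z * m z ^ 2)) ↔
        ∀ η : ℝ, 0 < η → ∃ N₀ : ℕ, ∀ N : ℕ, N₀ ≤ N →
          ∀ᶠ n in atTop, waves (fun z => φ z * ρ z) ρ (lam n) (u n) N ≤ η)) ∧
    ((∀ z, 0 ≤ φ z) → ∀ N : ℕ, 1 ≤ N → ∀ η : ℝ, 0 ≤ η →
      (∀ᶠ n in atTop, ∀ z ∈ Ω, ∀ j ∈ Finset.range (2 * N),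
        ‖wave ρ (lam n) (u n) N (Real.pi * j / N) z‖ ≤ η) → ∀ ε : ℝ, 0 < ε → ∀ᶠ n in atTop,
      (4 / 9 + 14 / (9 * (N : ℝ) ^ 2)) * excess (fun z => φ z * ρ z) m (u n) ≤
        2 * η ^ 2 / N * (∑ k ∈ Finset.range N,
          ∫ z, φ z * ρ z * ‖(D ρ (lam n))^[k] (fun w => (u n w : ℂ)) z‖ ^ 2) +
          ε * (1 + ∫ z in K, u n z ^ 4)) := by
  have L := Pool.Agent.P8H31.PW.limit Pool.Agent.P8H55.PWV.fou Pool.Agent.P8H83.PWV.wsum
    Pool.Agent.P8H88.PWV.gsum Ω hΩ ρ hρ hρ0 lam hpos hlam u hu heq m hm ν hsc hν K hK hKΩ φ hφ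
  have hKi : interior K ⊆ Ω := interior_subset.trans hKΩ
  have hφΩ : TF Ω φ := ⟨hφ.1, hφ.2.1, hφ.2.2.trans hKi⟩
  have hw : TF Ω (fun z => φ z * ρ z) := Pool.Agent.TH294.RS.TF.mulc hΩ hφΩ hρ
  have w0 : (∀ z, 0 ≤ φ z) → ∀ z, 0 ≤ φ z * ρ z := by
    intro h z
    by_cases hz : z ∈ Ω
    · exact mul_nonneg (h z) (hρ0 z hz).le
    · rw [Pool.Agent.TH294.RS.TF.zero hφΩ hz, zero_mul]
  have T1 : ∀ n, 1 ≤ 1 + ∫ z in K, u n z ^ 4 := by
    intro n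
    have : 0 ≤ ∫ z in K, u n z ^ 4 := integral_nonneg fun z => by positivity
    linarith
  refine ⟨L, fun hφ0 T hT => ?_, fun hφ0 N hN η hη hP ε hε => ?_⟩
  · have B := bounded (E := fun n => excess (fun z => φ z * ρ z) m (u n))
      (M := ∫ z, φ z * ρ z * m z ^ 2) (T := T)
      (integral_nonneg fun z => mul_nonneg (w0 hφ0 z) (sq_nonneg _))
      (Tn := fun n => 1 + ∫ z in K, u n z ^ 4) T1 (hT.mono fun n hn => by linarith)
      (wv := fun N n => waves (fun z => φ z * ρ z) ρ (lam n) (u n) N)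
      (fun N n => Finset.sum_nonneg fun j _ => integral_nonneg fun z =>
        mul_nonneg (w0 hφ0 z) (by positivity)) L
    rw [← B, ← tendsto_sub_nhds_zero_iff]
    exact tendsto_congr fun n => rfl
  · have N0 : (0 : ℝ) < N := by exact_mod_cast hN
    have h1 := (Metric.tendsto_nhds.1 (L N hN)) ε hε
    filter_upwards [h1, hP] with n a1 a2
    rw [Real.dist_eq, sub_zero, abs_div, abs_of_pos (lt_of_lt_of_le one_pos (T1 n)),
      div_lt_iff₀ (lt_of_lt_of_le one_pos (T1 n)), abs_lt] at a1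
    -- the sum of the squares
    have cw : ∀ j : ℕ, ContinuousOn (wave ρ (lam n) (u n) N (Real.pi * j / N)) Ω := fun j =>
      Pool.Agent.P8H31.PW.pw_cont hΩ hρ hρ0 (hpos n) (hu n) N _
    have cD : ∀ k : ℕ, ContinuousOn ((D ρ (lam n))^[k] (fun w => (u n w : ℂ))) Ω := fun k =>
      Pool.Agent.P8H31.PW.D_cont hΩ hρ hρ0 (hpos n) (hu n) k
    have j2 : ∀ j ∈ Finset.range (2 * N), Integrable (fun z => φ z * ρ z *
        ‖wave ρ (lam n) (u n) N (Real.pi * j / N) z‖ ^ 2) := fun j _ =>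
      Pool.Agent.W311.RW.int_mul hΩ hw ((cw j).norm.pow 2)
    have j4 : ∀ j ∈ Finset.range (2 * N), Integrable (fun z => φ z * ρ z *
        ‖wave ρ (lam n) (u n) N (Real.pi * j / N) z‖ ^ 4) := fun j _ =>
      Pool.Agent.W311.RW.int_mul hΩ hw ((cw j).norm.pow 4)
    have jk : ∀ k ∈ Finset.range N, Integrable (fun z => φ z * ρ z *
        ‖(D ρ (lam n))^[k] (fun w => (u n w : ℂ)) z‖ ^ 2) := fun k _ =>
      Pool.Agent.W311.RW.int_mul hΩ hw ((cD k).norm.pow 2)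
    have sq : ∀ z, ∑ j ∈ Finset.range (2 * N),
        ‖wave ρ (lam n) (u n) N (Real.pi * j / N) z‖ ^ 2 =
        2 / N * ∑ k ∈ Finset.range N, ‖(D ρ (lam n))^[k] (fun w => (u n w : ℂ)) z‖ ^ 2 := by
      intro z
      have s1 := Pool.Agent.P8H41.PWV.sqr N hN
        (fun k => (-I) ^ k * (D ρ (lam n))^[k] (fun w => (u n w : ℂ)) z)
      have s2 : ∀ j : ℕ, ‖wave ρ (lam n) (u n) N (Real.pi * j / N) z‖ ^ 2 = (1 / (N : ℝ) ^ 2) *
          ‖∑ k ∈ Finset.range N, Pool.Agent.P8H31.PW.ze N j k *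
            ((-I) ^ k * (D ρ (lam n))^[k] (fun w => (u n w : ℂ)) z)‖ ^ 2 := by
        intro j
        have e : wave ρ (lam n) (u n) N (Real.pi * j / N) z = _ :=
          Pool.Agent.P8H31.PW.pw_eq ρ (lam n) (u n) N j z
        rw [e, norm_mul, mul_pow, norm_div, norm_one, Complex.norm_natCast, div_pow, one_pow]
      simp only [s2]
      rw [← Finset.mul_sum, s1]
      have s3 : ∀ k : ℕ, ‖(-I) ^ k * (D ρ (lam n))^[k] (fun w => (u n w : ℂ)) z‖ ^ 2 =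
          ‖(D ρ (lam n))^[k] (fun w => (u n w : ℂ)) z‖ ^ 2 := by
        intro k
        rw [norm_mul, norm_pow, norm_neg, norm_I, one_pow, one_mul]
      simp only [s3]
      rw [← mul_assoc]
      congr 1
      field_simp
    have b1 : waves (fun z => φ z * ρ z) ρ (lam n) (u n) N ≤ η ^ 2 *
        ∑ j ∈ Finset.range (2 * N), ∫ z, φ z * ρ z *
          ‖wave ρ (lam n) (u n) N (Real.pi * j / N) z‖ ^ 2 := by
      unfold waves
      rw [Finset.mul_sum]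
      refine Finset.sum_le_sum fun j hj => ?_
      rw [← integral_const_mul]
      refine integral_mono (j4 j hj) ((j2 j hj).const_mul _) fun z => ?_
      show φ z * ρ z * ‖wave ρ (lam n) (u n) N (Real.pi * j / N) z‖ ^ 4 ≤
        η ^ 2 * (φ z * ρ z * ‖wave ρ (lam n) (u n) N (Real.pi * j / N) z‖ ^ 2)
      by_cases hz : z ∈ Ω
      · have c1 := a2 z hz j hj
        have c2 : ‖wave ρ (lam n) (u n) N (Real.pi * j / N) z‖ ^ 2 ≤ η ^ 2 :=
          pow_le_pow_left₀ (norm_nonneg _) c1 2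
        have c3 : 0 ≤ φ z * ρ z * ‖wave ρ (lam n) (u n) N (Real.pi * j / N) z‖ ^ 2 :=
          mul_nonneg (w0 hφ0 z) (sq_nonneg _)
        calc φ z * ρ z * ‖wave ρ (lam n) (u n) N (Real.pi * j / N) z‖ ^ 4 =
            (φ z * ρ z * ‖wave ρ (lam n) (u n) N (Real.pi * j / N) z‖ ^ 2) *
              ‖wave ρ (lam n) (u n) N (Real.pi * j / N) z‖ ^ 2 := by ring
          _ ≤ (φ z * ρ z * ‖wave ρ (lam n) (u n) N (Real.pi * j / N) z‖ ^ 2) * η ^ 2 :=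
            mul_le_mul_of_nonneg_left c2 c3
          _ = _ := by ring
      · rw [Pool.Agent.TH294.RS.TF.zero hφΩ hz]; simp
    have b2 : ∑ j ∈ Finset.range (2 * N), ∫ z, φ z * ρ z *
          ‖wave ρ (lam n) (u n) N (Real.pi * j / N) z‖ ^ 2 =
        2 / N * ∑ k ∈ Finset.range N, ∫ z, φ z * ρ z *
          ‖(D ρ (lam n))^[k] (fun w => (u n w : ℂ)) z‖ ^ 2 := by
      rw [← integral_finset_sum _ j2, ← integral_finset_sum _ jk, ← integral_const_mul]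
      congr 1; funext z
      rw [← Finset.mul_sum, sq, ← Finset.mul_sum]
      ring
    have b3 : 0 ≤ (4 * (N : ℝ) ^ 2 + 2) / (N : ℝ) ^ 3 * ∫ z, φ z * ρ z * m z ^ 2 :=
      mul_nonneg (by positivity) (integral_nonneg fun z => mul_nonneg (w0 hφ0 z) (sq_nonneg _))
    rw [b2] at b1
    have b4 : η ^ 2 * (2 / N * ∑ k ∈ Finset.range N, ∫ z, φ z * ρ z *
          ‖(D ρ (lam n))^[k] (fun w => (u n w : ℂ)) z‖ ^ 2) =
        2 * η ^ 2 / N * ∑ k ∈ Finset.range N, ∫ z, φ z * ρ z *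
          ‖(D ρ (lam n))^[k] (fun w => (u n w : ℂ)) z‖ ^ 2 := by ring
    rw [b4] at b1
    have a1' : -(ε * (1 + ∫ z in K, u n z ^ 4)) <
        waves (fun z => φ z * ρ z) ρ (lam n) (u n) N -
        ((4 / 9 + 14 / (9 * (N : ℝ) ^ 2)) * excess (fun z => φ z * ρ z) m (u n) +
        (4 * (N : ℝ) ^ 2 + 2) / (N : ℝ) ^ 3 * ∫ z, φ z * ρ z * m z ^ 2) := a1.1
    linarith

end Pool.Agent.Results.MP_a52643_an.PlaneWaves
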