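import Pool.Agent.P8H31.VC.Fin
import Pool.Agent.P8H86.VC.Gr
import Pool.Agent.P8H86.VC.Mc
import Pool.Agent.P8H78.VC.Up
import Pool.Agent.Results.MP_a52643_an.VanishingSet

/-!
# Atoms of limit laws of eigenfunctions and vacuum discs (MP_a52643_an)

A Riemannian surface in isothermal coordinates: an open set `Ω ⊆ ℂ` with the metric `ρ |dz|²` and
area measure `dvol = ρ dx dy`. `lapl` is the Laplacian `∂x² + ∂y²`; `LocL2 Ω u`: the sequence `u` is
bounded in `L²` on each compact subset of `Ω` (for large `n`); `Test Ω φ`: `φ ≥ 0` is smooth with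
compact support contained in `Ω`; `near Ω f δ` is the set of the points of `Ω` where `|f| ≤ δ`.

Proof idea for (1): where `|u| ≤ κ A`, `A = √(σ² + w²)`, `w` a semiclassical derivative of `u`, the
gradient is small (in the mean, relative to `A`); iterating, all the derivatives are small in the
mean where `u` is small, and Taylor's formula with the growth bound for the derivatives (from the
equation) carries this to the whole disc of radius `R/√λ`.
-/

set_option autoImplicit false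
open MeasureTheory Filter Topology Complex ProbabilityTheory
open scoped ContDiff ENNReal

namespace Pool.Agent.Results.MP_a52643_an.VacuumDiscs

open Pool.Agent.Results.MP_a52643_an.AbsoluteContinuity (lapl LocL2 Test)
open Pool.Agent.Results.MP_a52643_an.VanishingSet (D sym parallel near)
open Pool.Agent.W745.RW (TF)

/-- the mean of `f` over the disc of centre `z` and radius `r` -/
noncomputable def mean (r : ℝ) (f : ℂ → ℝ) (z : ℂ) : ℝ :=
  (1 / Real.pi) * ∫ c in Metric.ball (0 : ℂ) 1, f (z + r * c)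

/-- the vacuum: the centres in `Ω` of the discs of radius `R` wavelengths, `r = R/√λ`, over which
the mean of `u²` is at most `η` -/
noncomputable def vacuum (Ω : Set ℂ) (lam : ℝ) (u : ℂ → ℝ) (R η : ℝ) : Set ℂ :=
  {z | z ∈ Ω ∧ mean (R / √lam) (fun w => u w ^ 2) z ≤ η}

/-- **Result.** Let `u n` be real solutions of `Δu + λ_n u = 0` for the metric `ρ |dz|²` on `Ω`,
`λ_n → ∞`, bounded in `L²` on the compact subsets of `Ω`, and `φ ≥ 0` a test function.

(1) Where `u n` is small it is small in the mean over the whole disc of radius `R/√λ_n`: for `R > 0`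
and `ε > 0` there is `δ > 0` such that for large `n` the integral over `|u n| ≤ δ` of `φ` times the
mean of `(u n)²` over the disc of radius `R/√λ_n` is at most `ε`.

(2) If the laws of `u_(σ n)` under `φ dvol` converge vaguely to a finite measure `μ`, then for
each `R > 0` the atom `μ{0}` is the area fraction of the vacuum: for `ε > 0` and all sufficiently
small `η > 0`: `|μ{0} - vol_φ(vacuum R η)| ≤ ε` for all large `n`.

(3) `μ` is absolutely continuous if and only if there is no vacuum: for (one or all) `R > 0` and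
each `ε > 0` there is `η > 0` with `vol_φ(vacuum R η) ≤ ε` for all large `n`.

(4) If moreover `u n` has the semiclassical measure `ν_z dvol(z)`, `ν_z` without atoms modulo `π`
(in particular if `u n` is quantum ergodic), `φ` is supported in the interior of the compact set
`K ⊆ Ω` and the fourth moments of `u n` are at most `T` on `K` and at most `Q` under `φ dvol`,
`Q ≥ 3 A`, `A = ∫ φ dvol`, then for all `R, ε > 0` there is `η > 0` such that the area
`V = vol_φ(vacuum R η)` satisfies `(3/2) A V ≤ (A - V) (Q - 3 A) + ε` for all large `n`; so there is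
no vacuum if the fourth moments are Gaussian. -/
theorem result (Ω : Set ℂ) (hΩ : IsOpen Ω) (ρ : ℂ → ℝ) (hρ : ContDiffOn ℝ ∞ ρ Ω)
    (hρ0 : ∀ z ∈ Ω, 0 < ρ z) (lam : ℕ → ℝ) (hpos : ∀ n, 0 < lam n)
    (hlam : Tendsto lam atTop atTop) (u : ℕ → ℂ → ℝ) (hu : ∀ n, ContDiffOn ℝ ∞ (u n) Ω)
    (heq : ∀ n, ∀ z ∈ Ω, lapl (u n) z + lam n * (ρ z * u n z) = 0) (hL : LocL2 Ω u)
    (φ : ℂ → ℝ) (hφ : Test Ω φ) :
    (∀ R : ℝ, 0 < R → ∀ ε : ℝ, 0 < ε → ∃ δ : ℝ, 0 < δ ∧ ∀ᶠ n in atTop,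
      ∫ z in near Ω (u n) δ, φ z * ρ z * mean (R / √(lam n)) (fun w => u n w ^ 2) z ≤ ε) ∧
    (∀ (σ : ℕ → ℕ) (μ : Measure ℝ), StrictMono σ → IsFiniteMeasure μ →
      (∀ g : ℝ → ℝ, Continuous g → HasCompactSupport g →
        Tendsto (fun n => ∫ z, φ z * (g (u (σ n) z) * ρ z)) atTop (𝓝 (∫ x, g x ∂μ))) →
      (∀ R : ℝ, 0 < R → ∀ ε : ℝ, 0 < ε → ∃ η₀ : ℝ, 0 < η₀ ∧ ∀ η : ℝ, 0 < η → η ≤ η₀ →
        ∀ᶠ n in atTop,
          |μ.real {0} - ∫ z in vacuum Ω (lam (σ n)) (u (σ n)) R η, φ z * ρ z| ≤ ε) ∧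
      ∀ R : ℝ, 0 < R → (μ ≪ volume ↔ ∀ ε : ℝ, 0 < ε → ∃ η : ℝ, 0 < η ∧ ∀ᶠ n in atTop,
        ∫ z in vacuum Ω (lam (σ n)) (u (σ n)) R η, φ z * ρ z ≤ ε)) ∧
    (∀ (ν : Kernel ℂ ℝ), IsMarkovKernel ν →
      (∀ ψ, TF Ω ψ → ∀ k : ℕ, Tendsto (fun n => ∫ z, ((ψ z * ρ z : ℝ) : ℂ) *
        ((u n z : ℂ) * (D ρ (lam n))^[k] (fun w => (u n w : ℂ)) z)) atTop
        (𝓝 (∫ z, ((ψ z * ρ z : ℝ) : ℂ) * ∫ α, sym α ^ k ∂(ν z)))) →
      (∀ᵐ z ∂(volume.restrict Ω), parallel (ν z) = 0) →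
      ∀ K : Set ℂ, IsCompact K → K ⊆ Ω → tsupport φ ⊆ interior K → ∀ T Q : ℝ,
      (∀ᶠ n in atTop, ∫ z in K, u n z ^ 4 ≤ T) → (∀ᶠ n in atTop, ∫ z, φ z * ρ z * u n z ^ 4 ≤ Q) →
      3 * ∫ z, φ z * ρ z ≤ Q → ∀ R : ℝ, 0 < R → ∀ ε : ℝ, 0 < ε → ∃ η : ℝ, 0 < η ∧
        ∀ᶠ n in atTop,
          3 / 2 * ((∫ z, φ z * ρ z) * ∫ z in vacuum Ω (lam n) (u n) R η, φ z * ρ z) ≤
            ((∫ z, φ z * ρ z) - ∫ z in vacuum Ω (lam n) (u n) R η, φ z * ρ z) *
              (Q - 3 * ∫ z, φ z * ρ z) + ε) := by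
  have tφ : TF Ω φ := ⟨hφ.1, hφ.2.1, hφ.2.2.1⟩
  have hφ0 := hφ.2.2.2
  have cu : ∀ n, ContinuousOn (u n) Ω := fun n => (hu n).continuousOn
  obtain ⟨h, hh⟩ : ∃ h : ℕ → ℝ, ∀ n, h n = (√(lam n))⁻¹ := ⟨_, fun _ => rfl⟩
  have hp : ∀ n, 0 < h n := fun n => by
    rw [hh]; exact inv_pos.2 (Real.sqrt_pos.2 (hpos n))
  have h0 : Tendsto h atTop (𝓝 0) :=
    (tendsto_inv_atTop_zero.comp (Real.tendsto_sqrt_atTop.comp hlam)).congr fun n => (hh n).symm
  have h2 : ∀ n, h n ^ 2 * lam n = 1 := fun n => by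
    rw [hh, inv_pow, Real.sq_sqrt (hpos n).le, inv_mul_cancel₀ (hpos n).ne']
  have eR : ∀ (R : ℝ) n, R / √(lam n) = R * h n := fun R n => by rw [hh]; rfl
  have ew : ∀ n, ∀ z ∈ Ω, h n ^ 2 * lapl (u n) z = -(ρ z * u n z) := by
    intro n z hz
    have e1 := heq n z hz
    have := h2 n
    linear_combination (h n ^ 2) * e1 - (ρ z * u n z) * this
  have hM : ∀ k, Pool.Agent.TH294.RG.MK2 Ω h k (Pool.Agent.TH421.AC.cx u) := by
    intro k
    have lbw : Pool.Agent.TH294.RS.LB Ω 2 (Pool.Agent.TH421.AC.cx u) := by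
      refine ⟨fun n => Complex.ofRealCLM.contDiff.comp_contDiffOn (hu n), fun K hK hKB => ?_⟩
      obtain ⟨C, hC⟩ := hL K hK hKB
      refine ⟨C, hC.mono fun n hn => ?_⟩
      simp only [Pool.Agent.TH421.AC.cx, Complex.norm_real, Real.norm_eq_abs, sq_abs]
      exact hn
    refine Pool.Agent.TH421.DF.mk_sol hΩ hp h0 lbw (ρ := fun z => (ρ z : ℂ))
      (Complex.ofRealCLM.contDiff.comp_contDiffOn hρ) (c := fun _ => 1) (M := 1)
      (Eventually.of_forall fun n => by norm_num) ?_ k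
    intro n z hz
    have e1 : Pool.Agent.W745.RW.lap (Pool.Agent.TH421.AC.cx u n) z = ((lapl (u n) z : ℝ) : ℂ) :=
      Pool.Agent.TH294.RS.lap_re hΩ (hu n) hz
    simp only [Pool.Agent.TH294.RS.hL]
    rw [e1]
    have e2 := ew n z hz
    have e3 : ((h n ^ 2 * lapl (u n) z : ℝ) : ℂ) = ((-(ρ z * u n z) : ℝ) : ℂ) := by rw [e2]
    push_cast at e3
    simp only [Pool.Agent.TH421.AC.cx]
    push_cast
    rw [e3]; ring
  have he : ∀ n, ∀ z ∈ Ω, Pool.Agent.TH421.AC.rd h 1 (Pool.Agent.TH421.AC.rd h 1 u) n z +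
      Pool.Agent.TH421.AC.rd h I (Pool.Agent.TH421.AC.rd h I u) n z = -(ρ z * u n z) := by
    intro n z hz
    rw [Pool.Agent.Results.MP_a52643_an.AbsoluteContinuity.rdd hΩ hu 1 n hz,
      Pool.Agent.Results.MP_a52643_an.AbsoluteContinuity.rdd hΩ hu I n hz, ← mul_add]
    exact ew n z hz
  -- the weight
  obtain ⟨w, hw⟩ : ∃ w : ℂ → ℝ, w = fun z => φ z * ρ z := ⟨_, rfl⟩
  have ew' : ∀ z, φ z * ρ z = w z := fun z => by rw [hw]
  have tw : TF Ω w := by rw [hw]; exact Pool.Agent.TH294.RS.TF.mulc hΩ tφ hρ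
  have w0 : ∀ z, 0 ≤ w z := fun z => by
    rw [hw]
    by_cases hz : z ∈ Ω
    · exact mul_nonneg (hφ0 z) (hρ0 z hz).le
    · show 0 ≤ φ z * ρ z
      rw [Pool.Agent.TH294.RS.TF.zero tφ hz, zero_mul]
  have iw : Integrable w := tw.1.continuous.integrable_of_hasCompactSupport tw.2.1
  have P1 : ∀ R : ℝ, 0 < R → ∀ ε : ℝ, 0 < ε → ∃ δ : ℝ, 0 < δ ∧ ∀ᶠ n in atTop,
      ∫ z in Pool.Agent.P8H31.NZ.Sub w (fun z => |u n z| ≤ δ),
        w z * Pool.Agent.P8H31.VC.mean (R * h n) (fun w => u n w ^ 2) z ≤ ε :=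
    fun R hR ε hε => Pool.Agent.P8H31.VC.vac Pool.Agent.P8H86.VC.gr Pool.Agent.P8H86.VC.fu hΩ hp h0
      hρ hu hM he tw w0 hR.le hε
  have vq : ∀ (R η : ℝ) n, ∫ z in vacuum Ω (lam n) (u n) R η, φ z * ρ z =
      ∫ z in Pool.Agent.P8H31.NZ.Sub w (fun z =>
        Pool.Agent.P8H31.VC.mean (R * h n) (fun w => u n w ^ 2) z ≤ η), w z := by
    intro R η n
    have e1 := Pool.Agent.P8H31.VC.quiet_cut tw.2.2 (R * h n) (fun w => u n w ^ 2) η (fun _ => 1)
    simp only [mul_one] at e1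
    rw [← e1]
    simp only [ew']
    unfold vacuum
    rw [eR]
    rfl
  have nq : ∀ (δ : ℝ) n, ∫ z in near Ω (u n) δ, φ z * ρ z =
      ∫ z in Pool.Agent.P8H31.NZ.Sub w (fun z => |u n z| ≤ δ), w z := by
    intro δ n
    have e1 := Pool.Agent.P8H31.VC.near_cut tw.2.2 (u n) δ (fun _ => 1)
    simp only [mul_one] at e1
    rw [← e1]
    simp only [ew']
    rfl
  -- comparison of the two sets
  have lo : ∀ R : ℝ, 0 < R → ∀ η : ℝ, 0 < η → ∀ ε : ℝ, 0 < ε → ∃ δ : ℝ, 0 < δ ∧ ∀ᶠ n in atTop,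
      ∫ z in near Ω (u n) δ, φ z * ρ z ≤
        (∫ z in vacuum Ω (lam n) (u n) R η, φ z * ρ z) + ε := by
    intro R hR η hη ε hε
    simp only [vq, nq]
    exact Pool.Agent.P8H31.VC.small_quiet Pool.Agent.P8H86.VC.mc hΩ hp h0 hu tw w0 hR.le
      (P1 R hR) hη hε
  have hi : ∀ R : ℝ, 0 < R → ∀ δ : ℝ, 0 < δ → ∀ ε : ℝ, 0 < ε → ∃ η : ℝ, 0 < η ∧
      ∀ η' : ℝ, 0 < η' → η' ≤ η → ∀ᶠ n in atTop,
      ∫ z in vacuum Ω (lam n) (u n) R η', φ z * ρ z ≤
        (∫ z in near Ω (u n) δ, φ z * ρ z) + ε := by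
    intro R hR δ hδ ε hε
    simp only [vq, nq]
    exact Pool.Agent.P8H31.VC.quiet_small Pool.Agent.P8H86.VC.mc Pool.Agent.P8H78.VC.up hΩ hp h0 hu
      tw w0 hR hδ hε
  have mono : ∀ (R : ℝ) n (η η' : ℝ), η ≤ η' → ∫ z in vacuum Ω (lam n) (u n) R η, φ z * ρ z ≤
      ∫ z in vacuum Ω (lam n) (u n) R η', φ z * ρ z := by
    intro R n η η' hη
    simp only [ew']
    exact setIntegral_mono_set iw.integrableOn (ae_of_all _ w0)
      (HasSubset.Subset.eventuallyLE fun z hz => ⟨hz.1, hz.2.trans hη⟩)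
  refine ⟨?_, ?_, ?_⟩
  · -- the first part
    intro R hR ε hε
    obtain ⟨δ, δ0, hδ⟩ := P1 R hR ε hε
    refine ⟨δ, δ0, hδ.mono fun n hn => le_trans (le_of_eq ?_) hn⟩
    have e1 := Pool.Agent.P8H31.VC.near_cut tw.2.2 (u n) δ
      (Pool.Agent.P8H31.VC.mean (R * h n) (fun w => u n w ^ 2))
    rw [← e1]
    simp only [ew', eR]
    rfl
  · -- the second and the third part
    intro σ μ hσ hμ hg
    have P2 : ∀ R : ℝ, 0 < R → ∀ ε : ℝ, 0 < ε → ∃ η₀ : ℝ, 0 < η₀ ∧ ∀ η : ℝ, 0 < η → η ≤ η₀ →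
        ∀ᶠ n in atTop,
          |μ.real {0} - ∫ z in vacuum Ω (lam (σ n)) (u (σ n)) R η, φ z * ρ z| ≤ ε := by
      intro R hR ε hε
      obtain ⟨δ, δ0, hδ⟩ := Pool.Agent.P8H31.VC.near_le hΩ hρ.continuousOn hρ0 cu tφ hφ0 hg
        (show 0 < ε / 2 by positivity)
      obtain ⟨η₀, p0, hη₀⟩ := hi R hR δ δ0 (ε / 2) (by positivity)
      refine ⟨η₀, p0, fun η hη hηl => ?_⟩
      obtain ⟨δ', δ'0, hδ'⟩ := lo R hR η hη (ε / 2) (by positivity)
      have a1 := Pool.Agent.P8H31.NZ.atom_le hΩ hρ.continuousOn hρ0 cu tφ hφ0 hg δ'0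
        (show 0 < ε / 2 by positivity)
      filter_upwards [hδ, hσ.tendsto_atTop.eventually (hη₀ η hη hηl),
        hσ.tendsto_atTop.eventually hδ', a1] with n b1 b2 b3 b4
      have b1' : ∫ z in near Ω (u (σ n)) δ, φ z * ρ z ≤ μ.real {0} + ε / 2 := b1
      have b4' : μ.real {0} - ε / 2 ≤ ∫ z in near Ω (u (σ n)) δ', φ z * ρ z := b4
      rw [abs_le]
      constructor <;> linarith
    refine ⟨P2, fun R hR => ⟨fun hac ε hε => ?_, fun hv => ?_⟩⟩
    · obtain ⟨η₀, p0, hη₀⟩ := P2 R hR ε hε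
      refine ⟨η₀, p0, (hη₀ η₀ p0 le_rfl).mono fun n hn => ?_⟩
      have : μ.real {0} = 0 := by
        rw [measureReal_eq_zero_iff (measure_ne_top μ _)]
        exact hac Real.volume_singleton
      rw [this, abs_le] at hn
      linarith
    · have atom : μ {0} = 0 := by
        have h1 : μ.real {0} ≤ 0 := by
          refine le_of_forall_pos_le_add fun ε hε => ?_
          obtain ⟨η₀, p0, hη₀⟩ := P2 R hR (ε / 2) (by positivity)
          obtain ⟨η, η0, hη⟩ := hv (ε / 2) (by positivity)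
          obtain ⟨n, h3, h4⟩ := ((hη₀ (min η₀ η) (lt_min p0 η0) (min_le_left _ _)).and hη).exists
          have h5 := mono R (σ n) _ _ (min_le_right η₀ η)
          rw [abs_le] at h3
          linarith
        have h2 : μ.real {0} = 0 := le_antisymm h1 measureReal_nonneg
        rwa [measureReal_eq_zero_iff (measure_ne_top μ _)] at h2
      obtain ⟨C', hAC⟩ := Pool.Agent.Results.MP_a52643_an.AbsoluteContinuity.result Ω ρ lam u hΩ hρ
        hρ0 hlam hu heq hL φ hφ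
      have ac := (hAC μ hμ ⟨σ, hσ, hg⟩).2
      have hres : μ.restrict {0}ᶜ = μ := by
        have h1 : ∀ᵐ x ∂μ, x ∈ ({0} : Set ℝ)ᶜ := by
          rw [ae_iff]
          simpa using atom
        exact Measure.restrict_eq_self_of_ae_mem h1
      rwa [hres] at ac
  · -- the fourth part
    intro ν hν hsc hpar K hK hKΩ hφK T Q hT hQ hQ3 R hR ε hε
    obtain ⟨A, hA⟩ : ∃ A : ℝ, A = ∫ z, φ z * ρ z := ⟨_, rfl⟩
    have A0 : 0 ≤ A := by rw [hA]; simp only [ew']; exact integral_nonneg w0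
    have VA : ∀ Z : Set ℂ, ∫ z in Z, φ z * ρ z ≤ A := fun Z => by
      rw [hA]; simp only [ew']; exact setIntegral_le_integral iw (ae_of_all _ w0)
    rw [← hA] at hQ3 ⊢
    have T0 : 0 ≤ T := by
      obtain ⟨n, hn⟩ := hT.exists
      exact (integral_nonneg fun z => by positivity).trans hn
    have V := (Pool.Agent.Results.MP_a52643_an.VanishingSet.result Ω hΩ ρ hρ hρ0 lam hpos hlam u hu
      heq (fun _ => 1) contDiffOn_const ν (fun ψ hψ k => by simpa using hsc ψ hψ k) hpar).1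
      K hK hKΩ φ ⟨hφ.1, hφ.2.1, hφK⟩ hφ0 (ε / (2 * (1 + T))) (by positivity)
    obtain ⟨δ, δ0, hδ⟩ := V
    simp only [one_pow, mul_one] at hδ
    rw [← hA] at hδ
    obtain ⟨η, η0, hη⟩ := hi R hR δ δ0 (ε / (2 * (Q - 3 / 2 * A + 1))) (by
      have : 0 ≤ Q - 3 / 2 * A := by linarith
      positivity)
    refine ⟨η, η0, ?_⟩
    filter_upwards [hδ, hη η η0 le_rfl, hT, hQ] with n b1 b2 b3 b4
    obtain ⟨V, hV⟩ : ∃ V : ℝ, V = ∫ z in near Ω (u n) δ, φ z * ρ z := ⟨_, rfl⟩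
    obtain ⟨W, hW⟩ : ∃ W : ℝ, W = ∫ z in vacuum Ω (lam n) (u n) R η, φ z * ρ z := ⟨_, rfl⟩
    have v1 := VA (near Ω (u n) δ)
    rw [← hV] at b1 b2 v1
    rw [← hW] at b2 ⊢
    have c1 : (A - V) * ((∫ z, φ z * ρ z * u n z ^ 4) - 3 * A) ≤ (A - V) * (Q - 3 * A) :=
      mul_le_mul_of_nonneg_left (by linarith) (by linarith)
    have c2 : ε / (2 * (1 + T)) * (1 + ∫ z in K, u n z ^ 4) ≤ ε / 2 := by
      have h1 : ε / (2 * (1 + T)) * (1 + ∫ z in K, u n z ^ 4) ≤ ε / (2 * (1 + T)) * (1 + T) :=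
        mul_le_mul_of_nonneg_left (by linarith) (by positivity)
      refine h1.trans (le_of_eq ?_)
      have : (1 + T) ≠ 0 := by positivity
      field_simp
    obtain ⟨q, hq⟩ : ∃ q : ℝ, q = Q - 3 / 2 * A := ⟨_, rfl⟩
    have q0 : 0 ≤ q := by rw [hq]; linarith
    rw [← hq] at b2
    have c3 : W * q ≤ V * q + ε / 2 := by
      have h1 := mul_le_mul_of_nonneg_right b2 q0
      have h2 : ε / (2 * (q + 1)) * q ≤ ε / 2 := by
        have e1 : ε / (2 * (q + 1)) * q = ε / 2 * (q / (q + 1)) := by field_simp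
        rw [e1]
        refine mul_le_of_le_one_right (by positivity) ?_
        rw [div_le_one (by positivity)]; linarith
      linarith
    have c4 : 3 / 2 * (A * V) ≤ (A - V) * (Q - 3 * A) + ε / 2 := by linarith
    have c5 : V * q ≤ A * (Q - 3 * A) + ε / 2 := by rw [hq]; linarith
    have c6 : W * q ≤ A * (Q - 3 * A) + ε := by linarith
    rw [hq] at c6
    linarith

end Pool.Agent.Results.MP_a52643_an.VacuumDiscs
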